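import Mathlib

set_option autoImplicit false

namespace Pool.Agent.Work.MP_689d9c_gt.Nec

/-- Fourth power of the Koranyi distance. -/
def KK (p q : ℝ × ℝ × ℝ) : ℝ :=
  ((q.1 - p.1) ^ 2 + (q.2.1 - p.2.1) ^ 2) ^ 2
    + (q.2.2 - p.2.2 - 2 * (p.1 * q.2.1 - p.2.1 * q.1)) ^ 2

theorem KK_nonneg (p q : ℝ × ℝ × ℝ) : 0 ≤ KK p q := by
  unfold KK; positivity

theorem pow_four_rpow {r ε : ℝ} (hr : 0 ≤ r) : (r ^ 4) ^ (ε / 4) = r ^ ε := by
  rw [← Real.rpow_natCast, ← Real.rpow_mul hr]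
  congr 1
  push_cast
  ring

theorem rpow_le_iff {K r ε : ℝ} (hK : 0 ≤ K) (hr : 0 ≤ r) (hε : 0 < ε) :
    K ^ (ε / 4) ≤ r ^ ε ↔ K ≤ r ^ 4 := by
  rw [← pow_four_rpow (ε := ε) hr]
  exact Real.rpow_le_rpow_iff hK (by positivity) (by positivity)

theorem coords_le {p q : ℝ × ℝ × ℝ} {r : ℝ} (hr : 0 ≤ r) (h : KK p q ≤ r ^ 4) :
    |q.1 - p.1| ≤ r ∧ |q.2.1 - p.2.1| ≤ r ∧
      |q.2.2 - p.2.2 - 2 * (p.1 * q.2.1 - p.2.1 * q.1)| ≤ r ^ 2 := by
  unfold KK at h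
  set a := q.1 - p.1
  set b := q.2.1 - p.2.1
  set c := q.2.2 - p.2.2 - 2 * (p.1 * q.2.1 - p.2.1 * q.1)
  have h1 : (a ^ 2 + b ^ 2) ^ 2 ≤ (r ^ 2) ^ 2 := by nlinarith only [h, sq_nonneg c]
  have h2 : a ^ 2 + b ^ 2 ≤ r ^ 2 := by
    have := abs_le_of_sq_le_sq' h1 (by positivity)
    exact this.2
  refine ⟨abs_le_of_sq_le_sq (by nlinarith only [h2, sq_nonneg b]) hr,
    abs_le_of_sq_le_sq (by nlinarith only [h2, sq_nonneg a]) hr,
    abs_le_of_sq_le_sq (by nlinarith only [h, sq_nonneg (a ^ 2 + b ^ 2)]) (by positivity)⟩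

/-- A chain of `m` steps of length at most `r`. -/
theorem chain (p : ℕ → ℝ × ℝ × ℝ) {r : ℝ} (hr : 0 ≤ r) (m : ℕ)
    (h : ∀ j, j < m → KK (p j) (p (j + 1)) ≤ r ^ 4) :
    |(p m).1 - (p 0).1| ≤ m * r ∧ |(p m).2.1 - (p 0).2.1| ≤ m * r ∧
      |(p m).2.2 - (p 0).2.2 - 2 * ((p 0).1 * (p m).2.1 - (p 0).2.1 * (p m).1)|
        ≤ 2 * m ^ 2 * r ^ 2 := by
  induction m with
  | zero =>
    refine ⟨by simp, by simp, ?_⟩
    have : (p 0).2.2 - (p 0).2.2 - 2 * ((p 0).1 * (p 0).2.1 - (p 0).2.1 * (p 0).1) = 0 := by ring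
    rw [this]; simp
  | succ m ih =>
    obtain ⟨h1, h2, h3⟩ := ih (fun j hj => h j (Nat.lt_succ_of_lt hj))
    obtain ⟨g1, g2, g3⟩ := coords_le hr (h m (Nat.lt_succ_self m))
    set x0 := (p 0).1
    set y0 := (p 0).2.1
    set t0 := (p 0).2.2
    set x := (p m).1
    set y := (p m).2.1
    set t := (p m).2.2
    set x' := (p (m + 1)).1
    set y' := (p (m + 1)).2.1
    set t' := (p (m + 1)).2.2
    have hm : (0 : ℝ) ≤ m := Nat.cast_nonneg m
    refine ⟨?_, ?_, ?_⟩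
    · have : x' - x0 = (x - x0) + (x' - x) := by ring
      rw [this]; push_cast
      have := abs_add_le (x - x0) (x' - x)
      linarith
    · have : y' - y0 = (y - y0) + (y' - y) := by ring
      rw [this]; push_cast
      have := abs_add_le (y - y0) (y' - y)
      linarith
    · have e : t' - t0 - 2 * (x0 * y' - y0 * x') =
          (t - t0 - 2 * (x0 * y - y0 * x)) + (t' - t - 2 * (x * y' - y * x'))
            + (2 * ((x - x0) * (y' - y)) - 2 * ((y - y0) * (x' - x))) := by ring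
      have a1 : |(x - x0) * (y' - y)| ≤ m * r * r := by
        rw [abs_mul]; exact mul_le_mul h1 g2 (abs_nonneg _) (by positivity)
      have a2 : |(y - y0) * (x' - x)| ≤ m * r * r := by
        rw [abs_mul]; exact mul_le_mul h2 g1 (abs_nonneg _) (by positivity)
      rw [e]; push_cast
      rw [abs_le] at *
      have : 0 ≤ r ^ 2 := by positivity
      constructor <;> nlinarith only [h3, g3, a1, a2, a1.1, a1.2, a2.1, a2.2, h3.1, h3.2, g3.1, g3.2]

theorem chain_KK (p : ℕ → ℝ × ℝ × ℝ) {r : ℝ} (hr : 0 ≤ r) (m : ℕ)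
    (h : ∀ j, j < m → KK (p j) (p (j + 1)) ≤ r ^ 4) : KK (p 0) (p m) ≤ (2 * m * r) ^ 4 := by
  obtain ⟨h1, h2, h3⟩ := chain p hr m h
  unfold KK
  have a1 := sq_le_sq' (abs_le.1 h1).1 (abs_le.1 h1).2
  have a2 := sq_le_sq' (abs_le.1 h2).1 (abs_le.1 h2).2
  have a3 := sq_le_sq' (abs_le.1 h3).1 (abs_le.1 h3).2
  have a4 : (((p m).1 - (p 0).1) ^ 2 + ((p m).2.1 - (p 0).2.1) ^ 2) ^ 2
      ≤ (2 * (m * r) ^ 2) ^ 2 := by
    apply pow_le_pow_left₀ (by positivity)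
    linarith
  have : 0 ≤ ((m : ℝ) * r) ^ 4 := by positivity
  nlinarith only [a3, a4]

/-- Counting separated points in a cube when every cube has an empty subcube. -/
theorem count {X : Type} {n : ℕ} (g : X → Fin n → ℝ) {k : ℕ} (hk : 0 < k)
    (hpor : ∀ (c : Fin n → ℝ) (h : ℝ), 0 < h → ∃ j : Fin n → Fin k, ∀ x : X,
      ¬ ∀ i, c i + (j i : ℕ) * h ≤ g x i ∧ g x i < c i + ((j i : ℕ) + 1) * h)
    {δ : ℝ} (hδ : 0 < δ) (J : ℕ) :
    ∀ (c : Fin n → ℝ) (P : Finset X), (∀ x ∈ P, ∀ i, c i ≤ g x i ∧ g x i < c i + δ * k ^ J) →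
      (∀ x ∈ P, ∀ z ∈ P, (∀ i, |g x i - g z i| < δ) → x = z) → P.card ≤ (k ^ n - 1) ^ J := by
  classical
  induction J with
  | zero =>
    intro c P hP hs
    rw [pow_zero, Finset.card_le_one]
    intro x hx z hz
    apply hs x hx z hz
    intro i
    have h1 := hP x hx i
    have h2 := hP z hz i
    simp only [pow_zero, mul_one] at h1 h2
    rw [abs_lt]; constructor <;> linarith only [h1, h2, h1.1, h1.2, h2.1, h2.2]
  | succ J ih =>
    intro c P hP hs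
    have hkR : (0 : ℝ) < k := by exact_mod_cast hk
    set h : ℝ := δ * k ^ J with hh
    have hpos : 0 < h := by positivity
    obtain ⟨j0, hj0⟩ := hpor c h hpos
    have hex : ∀ x : X, ∃ j : Fin n → Fin k, x ∈ P →
        ∀ i, c i + (j i : ℕ) * h ≤ g x i ∧ g x i < c i + ((j i : ℕ) + 1) * h := by
      intro x
      by_cases hx : x ∈ P
      · have hlt : ∀ i, ⌊(g x i - c i) / h⌋₊ < k := by
          intro i
          have h1 := hP x hx i
          rw [Nat.floor_lt (div_nonneg (by linarith [h1.1]) hpos.le), div_lt_iff₀ hpos]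
          have : δ * (k : ℝ) ^ (J + 1) = k * h := by rw [hh]; ring
          linarith [h1.2]
        refine ⟨fun i => ⟨_, hlt i⟩, fun _ i => ?_⟩
        have h1 := hP x hx i
        have a1 := Nat.floor_le (div_nonneg (sub_nonneg.2 h1.1) hpos.le)
        have a2 := Nat.lt_floor_add_one ((g x i - c i) / h)
        rw [le_div_iff₀ hpos] at a1
        rw [div_lt_iff₀ hpos] at a2
        constructor
        · show c i + (⌊(g x i - c i) / h⌋₊ : ℝ) * h ≤ g x i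
          linarith only [a1]
        · show g x i < c i + ((⌊(g x i - c i) / h⌋₊ : ℝ) + 1) * h
          linarith only [a2]
      · exact ⟨j0, fun hx' => absurd hx' hx⟩
    choose φ hφ using hex
    have hmaps : ∀ x ∈ P, φ x ∈ (Finset.univ.erase j0 : Finset (Fin n → Fin k)) := by
      intro x hx
      rw [Finset.mem_erase]
      refine ⟨fun e => hj0 x ?_, Finset.mem_univ _⟩
      rw [← e]; exact hφ x hx
    have hfib : ∀ j ∈ (Finset.univ.erase j0 : Finset (Fin n → Fin k)),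
        (P.filter (fun x => φ x = j)).card ≤ (k ^ n - 1) ^ J := by
      intro j _
      apply ih (fun i => c i + (j i : ℕ) * h)
      · intro x hx i
        rw [Finset.mem_filter] at hx
        have := hφ x hx.1 i
        rw [hx.2] at this
        exact ⟨this.1, by linarith only [this, this.2]⟩
      · intro x hx z hz
        exact hs x (Finset.mem_filter.1 hx).1 z (Finset.mem_filter.1 hz).1
    have hc := Finset.card_le_mul_card_image_of_maps_to hmaps _ hfib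
    rw [Finset.card_erase_of_mem (Finset.mem_univ _), Finset.card_univ, Fintype.card_fun,
      Fintype.card_fin, Fintype.card_fin] at hc
    rw [pow_succ]
    exact hc

theorem dist_le_of_coords {n : ℕ} (y z : EuclideanSpace ℝ (Fin n)) {r : ℝ} (hr : 0 ≤ r)
    (h : ∀ i, |y i - z i| ≤ r) : dist y z ≤ n * r := by
  rw [EuclideanSpace.dist_eq]
  apply Real.sqrt_le_iff.2
  refine ⟨by positivity, ?_⟩
  have h1 : ∑ i, dist (y i) (z i) ^ 2 ≤ ∑ _i : Fin n, r ^ 2 := by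
    apply Finset.sum_le_sum
    intro i _
    rw [Real.dist_eq]
    exact pow_le_pow_left₀ (abs_nonneg _) (h i) 2
  rw [Finset.sum_const, Finset.card_univ, Fintype.card_fin, nsmul_eq_mul] at h1
  have h2 : (n : ℝ) ≤ (n : ℝ) ^ 2 := by
    have : n ≤ n ^ 2 := Nat.le_self_pow (by norm_num) n
    exact_mod_cast this
  have : 0 ≤ r ^ 2 := by positivity
  nlinarith only [h1, h2]

theorem coord_le_dist {n : ℕ} (y z : EuclideanSpace ℝ (Fin n)) (i : Fin n) :
    |y i - z i| ≤ dist y z := by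
  rw [← Real.dist_eq]
  exact PiLp.dist_apply_le y z i

/-- The image of a snowflake embedding is porous. -/
theorem porous {n : ℕ} (hn : 0 < n) {ε : ℝ} (h0 : 0 < ε) (h1 : ε < 1)
    (f : ℝ × ℝ × ℝ → EuclideanSpace ℝ (Fin n)) {C : ℝ} (hC : 0 < C)
    (h : ∀ p q, C⁻¹ * KK p q ^ (ε / 4) ≤ dist (f p) (f q) ∧
      dist (f p) (f q) ≤ C * KK p q ^ (ε / 4)) :
    ∃ k : ℕ, 2 ≤ k ∧ ∀ (c : Fin n → ℝ) (s : ℝ), 0 < s → ∃ j : Fin n → Fin k, ∀ x,
      ¬ ∀ i, c i + (j i : ℕ) * s ≤ f x i ∧ f x i < c i + ((j i : ℕ) + 1) * s := by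
  have hT : Filter.Tendsto (fun m : ℕ => (m : ℝ) ^ (1 - ε)) Filter.atTop Filter.atTop :=
    (tendsto_rpow_atTop (by linarith)).comp tendsto_natCast_atTop_atTop
  obtain ⟨m, hm1, hm2⟩ := ((hT.eventually_gt_atTop (8 * n * C ^ 2)).and
    (Filter.eventually_ge_atTop 2)).exists
  refine ⟨m + 1, by omega, fun c s hs => ?_⟩
  by_contra hcon
  push Not at hcon
  have hex : ∀ j : ℕ, ∃ x, j ≤ m → ∀ i, c i + j * s ≤ f x i ∧ f x i < c i + (j + 1) * s := by
    intro j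
    by_cases hj : j ≤ m
    · obtain ⟨x, hx⟩ := hcon (fun _ => ⟨j, by omega⟩)
      exact ⟨x, fun _ => hx⟩
    · exact ⟨0, fun hj' => absurd hj' hj⟩
  choose p hp using hex
  have hnR : (0 : ℝ) < n := by exact_mod_cast hn
  have hmR : (2 : ℝ) ≤ m := by exact_mod_cast hm2
  set r : ℝ := (2 * n * C * s) ^ (1 / ε) with hr
  have hr0 : 0 ≤ r := by positivity
  have hre : r ^ ε = 2 * n * C * s := by
    rw [hr, ← Real.rpow_mul (by positivity), one_div_mul_cancel h0.ne', Real.rpow_one]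
  have hstep : ∀ j, j < m → KK (p j) (p (j + 1)) ≤ r ^ 4 := by
    intro j hj
    rw [← rpow_le_iff (KK_nonneg _ _) hr0 h0, hre]
    have a1 := (h (p j) (p (j + 1))).1
    have a2 : dist (f (p j)) (f (p (j + 1))) ≤ n * (2 * s) := by
      apply dist_le_of_coords _ _ (by positivity)
      intro i
      have b1 := hp j hj.le i
      have b2 := hp (j + 1) hj i
      push_cast at b2
      rw [abs_le]; constructor <;> linarith only [b1, b2, hs, b1.1, b1.2, b2.1, b2.2]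
    rw [inv_mul_le_iff₀ hC] at a1
    have := mul_le_mul_of_nonneg_left a2 hC.le
    linarith only [a1, this]
  have hK := chain_KK p hr0 m hstep
  rw [← rpow_le_iff (KK_nonneg _ _) (by positivity) h0, Real.mul_rpow (by positivity) hr0,
    Real.mul_rpow (by positivity) (by positivity), hre] at hK
  have h2e : (2 : ℝ) ^ ε ≤ 2 := by
    have := Real.rpow_le_rpow_of_exponent_le (x := 2) (by norm_num) h1.le
    rwa [Real.rpow_one] at this
  have a1 := (h (p 0) (p m)).2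
  have a2 := coord_le_dist (f (p 0)) (f (p m)) ⟨0, hn⟩
  have b1 := hp 0 (Nat.zero_le m) ⟨0, hn⟩
  have b2 := hp m le_rfl ⟨0, hn⟩
  have a3 : (m - 1) * s ≤ dist (f (p 0)) (f (p m)) := by
    have := neg_abs_le (f (p 0) ⟨0, hn⟩ - f (p m) ⟨0, hn⟩)
    have b3 := b1.2
    push_cast at b3
    linarith only [hn, a2, b2, this, b3, b2.1]
  have hme : (0 : ℝ) < (m : ℝ) ^ ε := by positivity
  have a4 : KK (p 0) (p m) ^ (ε / 4) ≤ 2 * (m : ℝ) ^ ε * (2 * n * C * s) := by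
    refine hK.trans ?_
    gcongr
  have a5 : (m - 1) * s ≤ (4 * n * C ^ 2 * (m : ℝ) ^ ε) * s := by
    have := mul_le_mul_of_nonneg_left a4 hC.le
    nlinarith only [a1, a3, this]
  have a6 : (m : ℝ) - 1 ≤ 4 * n * C ^ 2 * (m : ℝ) ^ ε := le_of_mul_le_mul_right a5 hs
  have a7 : (m : ℝ) ^ (1 - ε) * (m : ℝ) ^ ε = m := by
    rw [← Real.rpow_add (by positivity)]; simp
  have a8 := mul_lt_mul_of_pos_right hm1 hme
  nlinarith only [hmR, a6, a7, a8]

theorem one_le_KK {a b c a' b' c' : ℕ} (hne : (a, b, c) ≠ (a', b', c')) :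
    1 ≤ KK ((a : ℝ), (b : ℝ), (c : ℝ)) ((a' : ℝ), (b' : ℝ), (c' : ℝ)) := by
  unfold KK
  have key : (1 : ℤ) ≤ (((a' : ℤ) - a) ^ 2 + ((b' : ℤ) - b) ^ 2) ^ 2
      + ((c' : ℤ) - c - 2 * ((a : ℤ) * b' - (b : ℤ) * a')) ^ 2 := by
    by_contra hcon
    have h1 : (((a' : ℤ) - a) ^ 2 + ((b' : ℤ) - b) ^ 2) ^ 2 = 0 := by
      nlinarith only [hcon, sq_nonneg (((a' : ℤ) - a) ^ 2 + ((b' : ℤ) - b) ^ 2),
        sq_nonneg ((c' : ℤ) - c - 2 * ((a : ℤ) * b' - (b : ℤ) * a'))]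
    have h2 : ((c' : ℤ) - c - 2 * ((a : ℤ) * b' - (b : ℤ) * a')) ^ 2 = 0 := by
      nlinarith only [hcon, sq_nonneg (((a' : ℤ) - a) ^ 2 + ((b' : ℤ) - b) ^ 2),
        sq_nonneg ((c' : ℤ) - c - 2 * ((a : ℤ) * b' - (b : ℤ) * a'))]
    have h3 := pow_eq_zero_iff (two_ne_zero) |>.1 h1
    have h4 := pow_eq_zero_iff (two_ne_zero) |>.1 h2
    have ha : (a' : ℤ) - a = 0 := by nlinarith only [h3, sq_nonneg ((a' : ℤ) - a), sq_nonneg ((b' : ℤ) - b)]
    have hb : (b' : ℤ) - b = 0 := by nlinarith only [h3, sq_nonneg ((a' : ℤ) - a), sq_nonneg ((b' : ℤ) - b)]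
    have ea : a = a' := by omega
    have eb : b = b' := by omega
    subst ea eb
    have ec : c = c' := by
      have : (c' : ℤ) - c = 0 := by linarith only [h4]
      omega
    exact hne (by rw [ec])
  have := (Int.cast_le (R := ℝ)).2 key
  push_cast at this
  exact this

theorem necessity' {n : ℕ} {ε : ℝ} (h0 : 0 < ε) (h1 : ε < 1)
    (f : ℝ × ℝ × ℝ → EuclideanSpace ℝ (Fin n)) {C : ℝ} (hC : 0 < C)
    (h : ∀ p q, C⁻¹ * KK p q ^ (ε / 4) ≤ dist (f p) (f q) ∧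
      dist (f p) (f q) ≤ C * KK p q ^ (ε / 4)) : 4 < n * ε := by
  classical
  have hsep : ∀ {a b c a' b' c' : ℕ}, (a, b, c) ≠ (a', b', c') →
      C⁻¹ ≤ dist (f ((a : ℝ), (b : ℝ), (c : ℝ))) (f ((a' : ℝ), (b' : ℝ), (c' : ℝ))) := by
    intro a b c a' b' c' hne
    refine le_trans ?_ (h _ _).1
    have := Real.one_le_rpow (one_le_KK hne) (by positivity : 0 ≤ ε / 4)
    have hC' : 0 < C⁻¹ := inv_pos.2 hC
    nlinarith only [h0, h1, this, hC']
  rcases Nat.eq_zero_or_pos n with hn | hn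
  · subst hn
    exfalso
    have a1 := hsep (a := 0) (b := 0) (c := 0) (a' := 0) (b' := 0) (c' := 1) (by simp)
    have a2 := dist_le_of_coords (f (((0 : ℕ) : ℝ), ((0 : ℕ) : ℝ), ((0 : ℕ) : ℝ)))
      (f (((0 : ℕ) : ℝ), ((0 : ℕ) : ℝ), ((1 : ℕ) : ℝ))) (le_refl 0) (fun i => i.elim0)
    have hC' : 0 < C⁻¹ := inv_pos.2 hC
    rw [mul_zero] at a2
    exact absurd (a1.trans a2) (not_le.2 hC')
  by_contra hcon
  push Not at hcon
  obtain ⟨k, hk, hpor⟩ := porous hn h0 h1 f hC h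
  have hnR : (0 : ℝ) < n := by exact_mod_cast hn
  have hkR : (2 : ℝ) ≤ k := by exact_mod_cast hk
  set δ : ℝ := C⁻¹ / (2 * n) with hδ
  have hδ0 : 0 < δ := by positivity
  set κ : ℝ := δ / (5 * C) with hκ
  have hκ0 : 0 < κ := by positivity
  have hkn : (1 : ℝ) ≤ (k : ℝ) ^ n := one_le_pow₀ (by linarith only [h0, h1, hkR])
  have hq0 : 0 ≤ ((k : ℝ) ^ n - 1) / (k : ℝ) ^ n := div_nonneg (by linarith) (by linarith)
  have hq1 : ((k : ℝ) ^ n - 1) / (k : ℝ) ^ n < 1 := by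
    rw [div_lt_one (by linarith)]; linarith
  have e1 := (tendsto_pow_atTop_nhds_zero_of_lt_one hq0 hq1).eventually
    (gt_mem_nhds (show (0 : ℝ) < κ ^ n / 16 by positivity))
  have e2 := (tendsto_pow_atTop_atTop_of_one_lt (show (1 : ℝ) < k by linarith)).eventually_ge_atTop
    (1 / κ)
  obtain ⟨J, hJ1, hJ2⟩ := (e1.and e2).exists
  set B : ℝ := κ * (k : ℝ) ^ J with hB
  have hB1 : 1 ≤ B := by
    rw [div_le_iff₀ hκ0] at hJ2
    rw [hB]; linarith only [hJ2]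
  set Y : ℝ := B ^ (1 / ε) with hY
  have hY1 : 1 ≤ Y := Real.one_le_rpow hB1 (by positivity)
  have hYe : Y ^ ε = B := by
    rw [hY, ← Real.rpow_mul (by positivity), one_div_mul_cancel h0.ne', Real.rpow_one]
  set m : ℕ := ⌊Y⌋₊ with hm
  have hm1 : (m : ℝ) ≤ Y := Nat.floor_le (by linarith only [h0, h1, hY1])
  have hm2 : Y < m + 1 := Nat.lt_floor_add_one Y
  have hm3 : (1 : ℝ) ≤ m := by
    have : 1 ≤ m := Nat.le_floor (by exact_mod_cast hY1)
    exact_mod_cast this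
  have hcount := count (X := ℕ × ℕ × ℕ)
    (fun x i => f ((x.1 : ℝ), (x.2.1 : ℝ), (x.2.2 : ℝ)) i) (k := k) (by omega)
    (fun c s hs => by
      obtain ⟨j, hj⟩ := hpor c s hs
      exact ⟨j, fun x => hj _⟩) hδ0 J (fun i => f (0, 0, 0) i - 2 * C * B)
    (Finset.range m ×ˢ Finset.range m ×ˢ Finset.range (m ^ 2)) ?_ ?_
  · rw [Finset.card_product, Finset.card_product, Finset.card_range, Finset.card_range] at hcount
    have c1 : ((m * (m * m ^ 2) : ℕ) : ℝ) ≤ (((k ^ n - 1) ^ J : ℕ) : ℝ) := by exact_mod_cast hcount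
    have hk1 : 1 ≤ k ^ n := Nat.one_le_pow _ _ (by omega)
    push_cast [Nat.cast_sub hk1] at c1
    have c2 : Y ^ 4 ≤ (2 * m) ^ 4 := pow_le_pow_left₀ (by linarith only [h0, h1, hY1]) (by linarith only [hm2, hm3]) 4
    have c3 : B ^ n ≤ Y ^ 4 := by
      rw [hY, ← Real.rpow_natCast, ← Real.rpow_natCast, ← Real.rpow_mul (by linarith only [h0, h1, hB1])]
      apply Real.rpow_le_rpow_of_exponent_le hB1
      rw [one_div, inv_mul_eq_div, le_div_iff₀ h0]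
      exact_mod_cast hcon
    have c4 : B ^ n = κ ^ n * ((k : ℝ) ^ n) ^ J := by
      rw [hB, mul_pow, ← pow_mul, ← pow_mul, mul_comm J n]
    rw [div_pow, div_lt_iff₀ (by positivity)] at hJ1
    nlinarith only [hJ1, c1, c2, c3, c4]
  · rintro ⟨a, b, c⟩ hx i
    simp only [Finset.mem_product, Finset.mem_range] at hx
    obtain ⟨ha, hb, hc⟩ := hx
    have ha' : (a : ℝ) ≤ m := by exact_mod_cast ha.le
    have hb' : (b : ℝ) ≤ m := by exact_mod_cast hb.le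
    have hc' : (c : ℝ) ≤ (m : ℝ) ^ 2 := by exact_mod_cast hc.le
    have hK : KK (0, 0, 0) ((a : ℝ), (b : ℝ), (c : ℝ)) ≤ (2 * Y) ^ 4 := by
      unfold KK
      simp only [sub_zero, zero_mul, mul_zero]
      have a1 : (a : ℝ) ^ 2 ≤ Y ^ 2 := pow_le_pow_left₀ (by positivity) (by linarith only [hm1, ha']) 2
      have a2 : (b : ℝ) ^ 2 ≤ Y ^ 2 := pow_le_pow_left₀ (by positivity) (by linarith only [hm1, hb']) 2
      have a3 : (m : ℝ) ^ 2 ≤ Y ^ 2 := pow_le_pow_left₀ (by positivity) (by linarith only [hm1]) 2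
      have a4 : ((a : ℝ) ^ 2 + (b : ℝ) ^ 2) ^ 2 ≤ (2 * Y ^ 2) ^ 2 :=
        pow_le_pow_left₀ (by positivity) (by linarith only [a1, a2]) 2
      have a5 : (c : ℝ) ^ 2 ≤ (Y ^ 2) ^ 2 := pow_le_pow_left₀ (by positivity) (by linarith only [hc', a3]) 2
      have : 0 ≤ Y ^ 4 := by positivity
      nlinarith only [a4, a5]
    rw [← rpow_le_iff (KK_nonneg _ _) (by positivity) h0,
      Real.mul_rpow (by norm_num) (by linarith only [h0, h1, hY1]), hYe] at hK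
    have h2e : (2 : ℝ) ^ ε ≤ 2 := by
      have := Real.rpow_le_rpow_of_exponent_le (x := 2) (by norm_num) h1.le
      rwa [Real.rpow_one] at this
    have a1 := (h (0, 0, 0) ((a : ℝ), (b : ℝ), (c : ℝ))).2
    have a2 := coord_le_dist (f (0, 0, 0)) (f ((a : ℝ), (b : ℝ), (c : ℝ))) i
    have a3 : KK (0, 0, 0) ((a : ℝ), (b : ℝ), (c : ℝ)) ^ (ε / 4) ≤ 2 * B :=
      hK.trans (mul_le_mul_of_nonneg_right h2e (by linarith only [h0, h1, hB1]))
    have a4 := mul_le_mul_of_nonneg_left a3 hC.le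
    have a5 : δ * (k : ℝ) ^ J = 5 * C * B := by
      rw [hB, hκ]; field_simp
    have a6 : 0 < C * B := by positivity
    rw [abs_le] at a2
    constructor
    · show f (0, 0, 0) i - 2 * C * B ≤ f ((a : ℝ), (b : ℝ), (c : ℝ)) i
      linarith only [a1, a2, a4, a2.1, a2.2]
    · show f ((a : ℝ), (b : ℝ), (c : ℝ)) i < f (0, 0, 0) i - 2 * C * B + δ * (k : ℝ) ^ J
      linarith only [a1, a2, a4, a5, a6, a2.1, a2.2]
  · rintro ⟨a, b, c⟩ _ ⟨a', b', c'⟩ _ hi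
    by_contra hne
    have a1 := hsep hne
    have a2 := dist_le_of_coords (f ((a : ℝ), (b : ℝ), (c : ℝ))) (f ((a' : ℝ), (b' : ℝ), (c' : ℝ)))
      hδ0.le (fun i => (hi i).le)
    have a3 : (n : ℝ) * δ = C⁻¹ / 2 := by rw [hδ]; field_simp
    have hC' : 0 < C⁻¹ := inv_pos.2 hC
    linarith only [a1, a2, a3, hC']

/-- A bi-Lipschitz embedding of the snowflaked Heisenberg group in `ℝⁿ` forces `4 < n ε`. -/
theorem necessity (n : ℕ) (ε : ℝ) (h0 : 0 < ε) (h1 : ε < 1)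
    (f : ℝ × ℝ × ℝ → EuclideanSpace ℝ (Fin n)) (C : ℝ) (hC : 0 < C)
    (h : ∀ p q : ℝ × ℝ × ℝ,
      C⁻¹ * (((q.1 - p.1) ^ 2 + (q.2.1 - p.2.1) ^ 2) ^ 2
            + (q.2.2 - p.2.2 - 2 * (p.1 * q.2.1 - p.2.1 * q.1)) ^ 2) ^ (ε / 4)
          ≤ dist (f p) (f q) ∧
      dist (f p) (f q) ≤
        C * (((q.1 - p.1) ^ 2 + (q.2.1 - p.2.1) ^ 2) ^ 2
            + (q.2.2 - p.2.2 - 2 * (p.1 * q.2.1 - p.2.1 * q.1)) ^ 2) ^ (ε / 4)) :
    4 < n * ε :=
  necessity' h0 h1 f hC h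

end Pool.Agent.Work.MP_689d9c_gt.Nec
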