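import Pool.Agent.Work.MP_689d9c_gt.Basic

set_option autoImplicit false

namespace Pool.Agent.Work.MP_689d9c_gt

open Real

/-- `exp (i t)`. -/
noncomputable def ei (t : ℝ) : ℂ := Complex.exp (Complex.I * t)

lemma norm_ei (t : ℝ) : ‖ei t‖ = 1 := by
  rw [ei, mul_comm]; exact Complex.norm_exp_ofReal_mul_I t

lemma ei_add (a b : ℝ) : ei (a + b) = ei a * ei b := by
  simp [ei, mul_add, Complex.exp_add]

lemma ei_zero : ei 0 = 1 := by simp [ei]

lemma norm_ei_sub (a b : ℝ) : ‖ei a - ei b‖ ≤ |a - b| := by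
  have : ei a - ei b = ei b * (ei (a - b) - 1) := by
    rw [mul_sub, ← ei_add]; simp
  rw [this, norm_mul, norm_ei, one_mul]
  exact Real.norm_exp_I_mul_ofReal_sub_one_le

lemma continuous_ei : Continuous ei := by unfold ei; fun_prop

lemma ei_re (t : ℝ) : (ei t).re = cos t := by
  rw [ei, mul_comm]; exact Complex.exp_ofReal_mul_I_re t

lemma ei_im (t : ℝ) : (ei t).im = sin t := by
  rw [ei, mul_comm]; exact Complex.exp_ofReal_mul_I_im t

/-- The one-step corrugation profile. -/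
lemma exists_profile {α : ℝ} (hα0 : 0 < α) (hα : α ≤ 1 / 1000) :
    ∃ (μ : ℝ) (g : ℝ → ℂ), 1 + α ^ 2 / 10 ≤ μ ∧ μ ≤ 2 ∧ (∀ x, ‖g x‖ ≤ 21 * α) ∧
      ∀ x x', ‖g x' - g x - (x' - x : ℝ) * (μ * ei (α * cos x) - 1)‖ ≤ 2 * α * (x' - x) ^ 2 := by
  have hπ : 0 < 2 * π := by positivity
  set J : ℝ := (1 / (2 * π)) * ∫ r in (0 : ℝ)..2 * π, cos (α * cos r) with hJ
  have hcos2 : ∫ r in (0 : ℝ)..2 * π, cos r ^ 2 = π := by
    rw [integral_cos_sq]; simp
  have hJ1 : 1 - α ^ 2 / 2 ≤ J := by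
    have : ∫ r in (0 : ℝ)..2 * π, (1 - α ^ 2 / 2) ≤ ∫ r in (0 : ℝ)..2 * π, cos (α * cos r) := by
      apply intervalIntegral.integral_mono_on hπ.le (by simp)
        (Continuous.intervalIntegrable (by fun_prop) _ _)
      intro r _
      have h1 := Real.one_sub_sq_div_two_le_cos (x := α * cos r)
      have h2 : cos r ^ 2 ≤ 1 := Real.cos_sq_le_one r
      nlinarith [sq_nonneg α]
    rw [intervalIntegral.integral_const, sub_zero, smul_eq_mul] at this
    rw [hJ, one_div, ← div_eq_inv_mul, le_div_iff₀ hπ]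
    linarith
  have hJ2 : J ≤ 1 - α ^ 2 / 10 := by
    have : ∫ r in (0 : ℝ)..2 * π, cos (α * cos r) ≤
        ∫ r in (0 : ℝ)..2 * π, (1 - α ^ 2 / 5 * cos r ^ 2) := by
      apply intervalIntegral.integral_mono_on hπ.le
        (Continuous.intervalIntegrable (by fun_prop) _ _)
        (Continuous.intervalIntegrable (by fun_prop) _ _)
      intro r _
      have h0 : |α * cos r| ≤ π := by
        rw [abs_mul, abs_of_pos hα0]
        nlinarith [Real.abs_cos_le_one r, Real.pi_gt_three, abs_nonneg (cos r)]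
      have h1 := Real.cos_le_one_sub_mul_cos_sq h0
      have h2 : (1 : ℝ) / 5 ≤ 2 / π ^ 2 := by
        rw [div_le_div_iff₀ (by norm_num) (by positivity)]
        nlinarith [Real.pi_lt_d2, Real.pi_pos]
      have h3 := mul_le_mul_of_nonneg_right h2 (sq_nonneg (α * cos r))
      nlinarith
    rw [intervalIntegral.integral_sub (by simp) (Continuous.intervalIntegrable (by fun_prop) _ _),
      intervalIntegral.integral_const_mul, hcos2, intervalIntegral.integral_const, sub_zero,
      smul_eq_mul] at this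
    rw [hJ, one_div, ← div_eq_inv_mul, div_le_iff₀ hπ]
    linarith
  have hα2 : α ^ 2 ≤ 1 / 1000 * α := by nlinarith
  have hJpos : 0 < J := by nlinarith
  set μ := 1 / J with hμ
  have hμJ : μ * J = 1 := by rw [hμ]; field_simp
  have hμ0 : 0 < μ := by positivity
  have hμ1 : 1 + α ^ 2 / 10 ≤ μ := by
    rw [hμ, le_div_iff₀ hJpos]
    nlinarith [sq_nonneg (α ^ 2), sq_nonneg α]
  have hμ2 : μ ≤ 1 + α ^ 2 := by
    rw [hμ, div_le_iff₀ hJpos]
    nlinarith [sq_nonneg (α ^ 2), sq_nonneg α]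
  set φ : ℝ → ℂ := fun x => μ * ei (α * cos x) - 1 with hφ
  have hφc : Continuous φ := by
    have := continuous_ei
    simp only [hφ]; fun_prop
  have hφp : Function.Periodic φ (2 * π) := fun x => by simp [hφ]
  have hφb : ∀ x, ‖φ x‖ ≤ 3 * α := by
    intro x
    have : φ x = μ * (ei (α * cos x) - ei 0) + ((μ - 1 : ℝ) : ℂ) := by
      simp only [hφ, ei_zero]; push_cast; ring
    rw [this]
    refine (norm_add_le _ _).trans ?_
    rw [norm_mul, Complex.norm_real, Complex.norm_real, Real.norm_eq_abs, Real.norm_eq_abs,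
      abs_of_pos hμ0, abs_of_nonneg (by nlinarith [sq_nonneg α])]
    have h1 := norm_ei_sub (α * cos x) 0
    rw [sub_zero, abs_mul, abs_of_pos hα0] at h1
    have h2 : α * |cos x| ≤ α := by nlinarith [Real.abs_cos_le_one x]
    have h3 : μ * ‖ei (α * cos x) - ei 0‖ ≤ 2 * α :=
      mul_le_mul (by nlinarith) (h1.trans h2) (norm_nonneg _) (by norm_num)
    nlinarith
  have hφL : ∀ x x', ‖φ x' - φ x‖ ≤ 2 * α * |x' - x| := by
    intro x x'
    have : φ x' - φ x = μ * (ei (α * cos x') - ei (α * cos x)) := by simp only [hφ]; ring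
    rw [this, norm_mul, Complex.norm_real, Real.norm_eq_abs, abs_of_pos hμ0, mul_assoc]
    refine mul_le_mul (by nlinarith) ((norm_ei_sub _ _).trans ?_) (norm_nonneg _) (by norm_num)
    rw [← mul_sub, abs_mul, abs_of_pos hα0]
    exact mul_le_mul_of_nonneg_left (Real.abs_cos_sub_cos_le _ _) hα0.le
  have hφ0 : ∫ r in (0 : ℝ)..2 * π, φ r = 0 := by
    have e : ∀ r, φ r = ((μ * cos (α * cos r) - 1 : ℝ) : ℂ) +
        Complex.I * ((μ * sin (α * cos r) : ℝ) : ℂ) := by
      intro r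
      apply Complex.ext
      · simp [hφ, ei_re, -Complex.ofReal_cos, -Complex.ofReal_sin]
      · simp [hφ, ei_im, -Complex.ofReal_cos, -Complex.ofReal_sin]
    simp only [e]
    rw [intervalIntegral.integral_add (Continuous.intervalIntegrable (by fun_prop) _ _)
      (Continuous.intervalIntegrable (by fun_prop) _ _), intervalIntegral.integral_const_mul,
      intervalIntegral.integral_ofReal, intervalIntegral.integral_ofReal,
      integral_zero_of_antiperiodic (φ := fun r => μ * sin (α * cos r)) (by fun_prop)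
        (fun r => by simp),
      intervalIntegral.integral_sub (Continuous.intervalIntegrable (by fun_prop) _ _) (by simp),
      intervalIntegral.integral_const_mul, intervalIntegral.integral_const]
    have : ∫ r in (0 : ℝ)..2 * π, cos (α * cos r) = J * (2 * π) := by rw [hJ]; field_simp
    rw [this, ← mul_assoc, hμJ]
    simp
  refine ⟨μ, fun y => anti fun r => φ (y + r), hμ1, by nlinarith, fun x => ?_, fun x x' => ?_⟩
  · exact (norm_anti_le_const (hφc.comp (by fun_prop)) (fun r => hφb _)).trans (by linarith)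
  · have hc : Continuous fun r => φ (x + r) := hφc.comp (by fun_prop)
    have h1 := anti_shift hc (fun r => by simpa [add_assoc] using hφp (x + r)) (by
      rw [intervalIntegral.integral_comp_add_left φ x, add_zero, hφp.intervalIntegral_add_eq x 0,
        zero_add, hφ0]) (x' - x)
    simp only [← add_assoc, add_sub_cancel] at h1
    have h2 := integral_taylor hc (L := 2 * α) (by positivity) (fun r => by
      simpa using hφL (x + 0) (x + r)) (x' - x)
    rw [← h1, add_zero, Complex.real_smul] at h2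
    exact h2

/-- Unit tangent of the `k`-th approximation of the snowflake curve. -/
noncomputable def uu (α lam : ℝ) (k : ℕ) (x : ℝ) : ℂ :=
  ei (α * ∑ i ∈ Finset.range k, cos (lam ^ i * x))

/-- The `n`-th approximation of the snowflake curve. -/
noncomputable def kap (α lam s : ℝ) (g : ℝ → ℂ) (n : ℕ) (x : ℝ) : ℂ :=
  x + ∑ k ∈ Finset.range n, (s ^ k : ℝ) * uu α lam k x * g (lam ^ k * x)

lemma norm_uu (α lam : ℝ) (k : ℕ) (x : ℝ) : ‖uu α lam k x‖ = 1 := norm_ei _

lemma uu_succ (α lam : ℝ) (k : ℕ) (x : ℝ) :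
    uu α lam (k + 1) x = uu α lam k x * ei (α * cos (lam ^ k * x)) := by
  rw [uu, Finset.sum_range_succ, mul_add, ei_add, uu]

lemma uu_lip {α lam : ℝ} (hα : 0 ≤ α) (hlam : 2 ≤ lam) (k : ℕ) (x x' : ℝ) :
    ‖uu α lam k x' - uu α lam k x‖ ≤ 2 * α * (lam ^ k / lam) * |x' - x| := by
  refine (norm_ei_sub _ _).trans ?_
  rw [← mul_sub, abs_mul, abs_of_nonneg hα, mul_comm 2 α, mul_assoc, mul_assoc]
  apply mul_le_mul_of_nonneg_left _ hα
  have hl0 : 0 < lam := by linarith
  induction k with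
  | zero => simp only [Finset.range_zero, Finset.sum_empty, sub_self, abs_zero]; positivity
  | succ k ih =>
    rw [Finset.sum_range_succ, Finset.sum_range_succ, add_sub_add_comm]
    refine (abs_add_le _ _).trans ?_
    have h1 := Real.abs_cos_sub_cos_le (lam ^ k * x') (lam ^ k * x)
    rw [← mul_sub, abs_mul, abs_of_pos (pow_pos hl0 k)] at h1
    have h2 : lam ^ (k + 1) / lam = lam ^ k := by rw [pow_succ]; field_simp
    have h3 : lam ^ k / lam ≤ lam ^ k / 2 := by gcongr
    have h4 := mul_le_mul_of_nonneg_right h3 (abs_nonneg (x' - x))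
    rw [h2]
    linarith

lemma uu_level {α lam : ℝ} (hα : 0 ≤ α) (k d : ℕ) (x : ℝ) :
    ‖uu α lam (k + d) x - uu α lam k x‖ ≤ α * d := by
  induction d with
  | zero => simp
  | succ d ih =>
    have h1 : ‖uu α lam (k + d + 1) x - uu α lam (k + d) x‖ ≤ α := by
      refine (norm_ei_sub _ _).trans ?_
      rw [Finset.sum_range_succ, ← mul_sub, add_sub_cancel_left, abs_mul, abs_of_nonneg hα]
      nlinarith [Real.abs_cos_le_one (lam ^ (k + d) * x)]
    have := norm_sub_le_norm_sub_add_norm_sub (uu α lam (k + d + 1) x) (uu α lam (k + d) x)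
      (uu α lam k x)
    rw [← add_assoc]
    push_cast
    linarith

/-- Standing hypotheses on the parameters of the snowflake curve. -/
structure KochP (α lam μ s : ℝ) (g : ℝ → ℂ) : Prop where
  hα0 : 0 < α
  hα : α ≤ 1 / 1000
  hlam : 5000 ≤ lam
  hμ1 : 1 + α ^ 2 / 10 ≤ μ
  hμ2 : μ ≤ 2
  hs : s * lam = μ
  hg : ∀ x, ‖g x‖ ≤ 21 * α
  hT : ∀ x x', ‖g x' - g x - (x' - x : ℝ) * (μ * ei (α * cos x) - 1)‖ ≤ 2 * α * (x' - x) ^ 2

variable {α lam μ s : ℝ} {g : ℝ → ℂ}

lemma KochP.one_le_μ (P : KochP α lam μ s g) : 1 ≤ μ := by nlinarith [P.hμ1, sq_nonneg α]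

lemma KochP.lam_pos (P : KochP α lam μ s g) : 0 < lam := by linarith [P.hlam]

lemma KochP.s_pos (P : KochP α lam μ s g) : 0 < s := by
  have := P.hs; have := P.one_le_μ; have := P.lam_pos
  by_contra h
  nlinarith

lemma KochP.s_le (P : KochP α lam μ s g) : s ≤ 1 / 1000 := by
  have := P.hs; have := P.hμ2; have := P.hlam; have := P.s_pos
  nlinarith

lemma KochP.head (P : KochP α lam μ s g) (x x' : ℝ) (i : ℕ) :
    ‖kap α lam s g i x' - kap α lam s g i x - (μ ^ i * (x' - x) : ℝ) * uu α lam i x‖ ≤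
      4 * α * μ ^ i * (lam ^ i / lam) * (x' - x) ^ 2 + 420 / lam * μ ^ i * |x' - x| := by
  have hl0 := P.lam_pos
  have hμ := P.one_le_μ
  have hα0 := P.hα0
  have hs0 := P.s_pos
  induction i with
  | zero =>
    have : kap α lam s g 0 x' - kap α lam s g 0 x - (μ ^ 0 * (x' - x) : ℝ) * uu α lam 0 x = 0 := by
      simp [kap, uu, ei_zero]
    rw [this, norm_zero]; positivity
  | succ i ih =>
    have hsl : s ^ i * lam ^ i = μ ^ i := by rw [← mul_pow, P.hs]
    have e : kap α lam s g (i + 1) x' - kap α lam s g (i + 1) x -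
        (μ ^ (i + 1) * (x' - x) : ℝ) * uu α lam (i + 1) x =
        (kap α lam s g i x' - kap α lam s g i x - (μ ^ i * (x' - x) : ℝ) * uu α lam i x) +
        (s ^ i : ℝ) * uu α lam i x * (g (lam ^ i * x') - g (lam ^ i * x) -
          (lam ^ i * x' - lam ^ i * x : ℝ) * (μ * ei (α * cos (lam ^ i * x)) - 1)) +
        (s ^ i : ℝ) * (uu α lam i x' - uu α lam i x) * g (lam ^ i * x') := by
      rw [uu_succ, pow_succ μ, ← hsl]
      simp only [kap, Finset.sum_range_succ]
      push_cast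
      ring
    rw [e]
    have h1 : ‖(s ^ i : ℝ) * uu α lam i x * (g (lam ^ i * x') - g (lam ^ i * x) -
          (lam ^ i * x' - lam ^ i * x : ℝ) * (μ * ei (α * cos (lam ^ i * x)) - 1))‖ ≤
        2 * α * μ ^ i * lam ^ i * (x' - x) ^ 2 := by
      rw [norm_mul, norm_mul, norm_uu, mul_one, Complex.norm_real, Real.norm_eq_abs,
        abs_of_pos (pow_pos hs0 i)]
      refine (mul_le_mul_of_nonneg_left (P.hT _ _) (pow_pos hs0 i).le).trans (le_of_eq ?_)
      rw [← hsl]; ring
    have h2 : ‖(s ^ i : ℝ) * (uu α lam i x' - uu α lam i x) * g (lam ^ i * x')‖ ≤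
        42 * α ^ 2 / lam * μ ^ i * |x' - x| := by
      rw [norm_mul, norm_mul, Complex.norm_real, Real.norm_eq_abs, abs_of_pos (pow_pos hs0 i)]
      have := uu_lip hα0.le (by linarith [P.hlam] : 2 ≤ lam) i x x'
      calc _ ≤ s ^ i * (2 * α * (lam ^ i / lam) * |x' - x|) * (21 * α) := by
            gcongr
            exact P.hg _
        _ = _ := by rw [← hsl]; field_simp; ring
    refine (norm_add₃_le).trans ?_
    have h3 : lam ^ (i + 1) / lam = lam ^ i := by rw [pow_succ]; field_simp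
    have h4 : lam ^ i / lam ≤ lam ^ i / 2 := by gcongr; linarith [P.hlam]
    have h5 : 4 * α * μ ^ i * (lam ^ i / lam) * (x' - x) ^ 2 ≤
        4 * α * μ ^ i * (lam ^ i / 2) * (x' - x) ^ 2 := by gcongr
    have h6 : 4 * α * μ ^ i * lam ^ i * (x' - x) ^ 2 ≤
        4 * α * μ ^ (i + 1) * lam ^ i * (x' - x) ^ 2 := by gcongr; omega
    have h7 : 420 / lam * μ ^ i * |x' - x| * (1 + α ^ 2 / 10) ≤ 420 / lam * μ ^ i * |x' - x| * μ :=
      mul_le_mul_of_nonneg_left P.hμ1 (by positivity)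
    have h8 : 420 / lam * μ ^ i * |x' - x| * (1 + α ^ 2 / 10) =
        420 / lam * μ ^ i * |x' - x| + 42 * α ^ 2 / lam * μ ^ i * |x' - x| := by ring
    have h9 : 420 / lam * μ ^ i * |x' - x| * μ = 420 / lam * μ ^ (i + 1) * |x' - x| := by ring
    rw [h3]
    linarith

lemma KochP.tail (P : KochP α lam μ s g) (x : ℝ) {i n : ℕ} (h : i ≤ n) :
    ‖kap α lam s g n x - kap α lam s g i x‖ ≤ 42 * α * s ^ i := by
  have hs0 := P.s_pos
  have hα0 := P.hα0
  have : kap α lam s g n x - kap α lam s g i x =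
      ∑ k ∈ Finset.Ico i n, (s ^ k : ℝ) * uu α lam k x * g (lam ^ k * x) := by
    rw [Finset.sum_Ico_eq_sub _ h, kap, kap]; ring
  rw [this]
  refine (norm_sum_le _ _).trans ((sum_geom_high hs0.le (by linarith [P.s_le])
    (A := 21 * α * s ^ i) (by positivity) _ i n ?_).trans (le_of_eq (by ring)))
  intro k hk
  rw [norm_mul, norm_mul, norm_uu, mul_one, Complex.norm_real, Real.norm_eq_abs,
    abs_of_pos (pow_pos hs0 k), mul_assoc, ← pow_add, Nat.add_sub_cancel' hk, mul_comm]
  exact mul_le_mul_of_nonneg_right (P.hg _) (pow_pos hs0 k).le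

lemma KochP.approx (P : KochP α lam μ s g) (x x' : ℝ) {i n : ℕ} (h : i ≤ n)
    (hx : lam ^ i * |x' - x| ≤ lam) :
    ‖kap α lam s g n x' - kap α lam s g n x - (μ ^ i * (x' - x) : ℝ) * uu α lam i x‖ ≤
      1 / 8 * (μ ^ i * |x' - x|) + 84 * α * s ^ i := by
  have hl0 := P.lam_pos
  have hμ := P.one_le_μ
  have hα0 := P.hα0
  have h1 := P.head x x' i
  have h2 := P.tail x h
  have h3 := P.tail x' h
  have e : kap α lam s g n x' - kap α lam s g n x - (μ ^ i * (x' - x) : ℝ) * uu α lam i x =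
      (kap α lam s g i x' - kap α lam s g i x - (μ ^ i * (x' - x) : ℝ) * uu α lam i x) +
      (kap α lam s g n x' - kap α lam s g i x') - (kap α lam s g n x - kap α lam s g i x) := by
    ring
  rw [e]
  refine (norm_sub_le _ _).trans ((add_le_add_left (norm_add_le _ _) _).trans ?_)
  have h4 : lam ^ i / lam * |x' - x| ≤ 1 := by
    rw [div_mul_eq_mul_div, div_le_one hl0]; exact hx
  have h5 : 4 * α * μ ^ i * (lam ^ i / lam) * (x' - x) ^ 2 =
      4 * α * (μ ^ i * |x' - x|) * (lam ^ i / lam * |x' - x|) := by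
    rw [← sq_abs]; ring
  have h6 : 4 * α * (μ ^ i * |x' - x|) * (lam ^ i / lam * |x' - x|) ≤
      4 * α * (μ ^ i * |x' - x|) * 1 := by gcongr
  have h7 : 420 / lam ≤ 420 / 5000 := by gcongr; exact P.hlam
  have h8 : 0 ≤ μ ^ i * |x' - x| := by positivity
  have h9 := mul_le_mul_of_nonneg_right h7 h8
  have h10 := mul_le_mul_of_nonneg_right P.hα h8
  nlinarith

lemma KochP.upper (P : KochP α lam μ s g) (x x' : ℝ) {i n : ℕ} (h : i ≤ n)
    (hx : lam ^ i * |x' - x| ≤ 1) : ‖kap α lam s g n x' - kap α lam s g n x‖ ≤ 2 * s ^ i := by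
  have hs0 := P.s_pos
  have hμ := P.one_le_μ
  have h1 := P.approx x x' h (hx.trans (by linarith [P.hlam]))
  have h2 : μ ^ i * |x' - x| ≤ s ^ i := by
    rw [← P.hs, mul_pow, mul_assoc]
    exact mul_le_of_le_one_right (pow_pos hs0 i).le hx
  have h3 : ‖((μ ^ i * (x' - x) : ℝ) : ℂ) * uu α lam i x‖ = μ ^ i * |x' - x| := by
    rw [norm_mul, norm_uu, mul_one, Complex.norm_real, Real.norm_eq_abs, abs_mul,
      abs_of_pos (by positivity)]
  have h4 := norm_le_norm_sub_add (kap α lam s g n x' - kap α lam s g n x)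
    (((μ ^ i * (x' - x) : ℝ) : ℂ) * uu α lam i x)
  have h5 := mul_le_mul_of_nonneg_right P.hα (pow_pos hs0 i).le
  nlinarith [pow_pos hs0 i]

lemma KochP.chord (P : KochP α lam μ s g) (x x' : ℝ) {i n : ℕ} (h : i ≤ n)
    (hx : lam ^ i * |x' - x| ≤ lam) (hx' : 1 ≤ lam ^ i * |x' - x|) :
    s ^ i ≤ μ ^ i * |x' - x| ∧
    ‖kap α lam s g n x' - kap α lam s g n x - (μ ^ i * (x' - x) : ℝ) * uu α lam i x‖ ≤
      1 / 4 * (μ ^ i * |x' - x|) := by
  have hs0 := P.s_pos
  have h1 := P.approx x x' h hx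
  have h2 : s ^ i ≤ μ ^ i * |x' - x| := by
    rw [← P.hs, mul_pow, mul_assoc]
    exact le_mul_of_one_le_right (pow_pos hs0 i).le hx'
  have h5 := mul_le_mul_of_nonneg_right P.hα (pow_pos hs0 i).le
  exact ⟨h2, by nlinarith [pow_pos hs0 i]⟩

end Pool.Agent.Work.MP_689d9c_gt
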