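import Pool.Agent.Work.MP_689d9c_gt.Fibre
import Pool.Agent.Work.MP_689d9c_gt.Koch

set_option autoImplicit false

namespace Pool.Agent.Work.MP_689d9c_gt

open Real

/-- Euclidean three-space. -/
abbrev E3 := EuclideanSpace ℝ (Fin 3)

/-- The target, with the sup norm. -/
abbrev Tg := ℂ × ℂ × ℝ

/-- Placing a vector of three-space along the normal directions. -/
noncomputable def Jm (u w : ℂ) (v : E3) : Tg := (v 0 * Complex.I * u, v 1 * Complex.I * w, v 2)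

lemma Jm_sub (u w : ℂ) (v v' : E3) : Jm u w (v - v') = Jm u w v - Jm u w v' := by
  simp only [Jm, PiLp.sub_apply, Prod.mk_sub_mk]
  push_cast
  congr 1
  · ring
  · congr 1; ring

lemma Jm_sum (u w : ℂ) (n : ℕ) (v : ℕ → E3) :
    Jm u w (∑ k ∈ Finset.range n, v k) = ∑ k ∈ Finset.range n, Jm u w (v k) := by
  induction n with
  | zero => simp [Jm]
  | succ n ih =>
    rw [Finset.sum_range_succ, Finset.sum_range_succ, ← ih]
    simp only [Jm, PiLp.add_apply, Prod.mk_add_mk]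
    push_cast
    congr 1
    · ring
    · congr 1; ring

lemma abs_coord_le (v : E3) (i : Fin 3) : |v i| ≤ ‖v‖ := PiLp.norm_apply_le v i

lemma norm_Jm_comp (a : ℝ) (u : ℂ) : ‖(a : ℂ) * Complex.I * u‖ = |a| * ‖u‖ := by
  rw [norm_mul, norm_mul, Complex.norm_I, mul_one, Complex.norm_real, Real.norm_eq_abs]

lemma norm_Jm_le {u w : ℂ} (hu : ‖u‖ = 1) (hw : ‖w‖ = 1) (v : E3) : ‖Jm u w v‖ ≤ ‖v‖ := by
  simp only [Jm, Prod.norm_mk, norm_Jm_comp, hu, hw, mul_one, Real.norm_eq_abs]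
  exact max_le (abs_coord_le v 0) (max_le (abs_coord_le v 1) (abs_coord_le v 2))

lemma le_norm_Jm {u w : ℂ} (hu : ‖u‖ = 1) (hw : ‖w‖ = 1) (v : E3) : ‖v‖ / 2 ≤ ‖Jm u w v‖ := by
  simp only [Jm, Prod.norm_mk, norm_Jm_comp, hu, hw, mul_one, Real.norm_eq_abs]
  set m := max |v 0| (max |v 1| |v 2|)
  have h0 : |v 0| ≤ m := le_max_left _ _
  have h1 : |v 1| ≤ m := (le_max_left _ _).trans (le_max_right _ _)
  have h2 : |v 2| ≤ m := (le_max_right _ _).trans (le_max_right _ _)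
  have hm : 0 ≤ m := (abs_nonneg _).trans h0
  have : ‖v‖ ≤ 2 * m := by
    apply le_of_sq_le_sq _ (by positivity)
    rw [EuclideanSpace.real_norm_sq_eq, Fin.sum_univ_three, ← sq_abs (v 0), ← sq_abs (v 1),
      ← sq_abs (v 2)]
    nlinarith [abs_nonneg (v 0), abs_nonneg (v 1), abs_nonneg (v 2)]
  linarith

lemma norm_Jm_sub_Jm {u w u' w' : ℂ} {δ : ℝ} (hu : ‖u' - u‖ ≤ δ) (hw : ‖w' - w‖ ≤ δ) (v : E3) :
    ‖Jm u' w' v - Jm u w v‖ ≤ ‖v‖ * δ := by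
  have hδ : 0 ≤ δ := (norm_nonneg _).trans hu
  simp only [Jm, Prod.mk_sub_mk, ← mul_sub, Prod.norm_mk, norm_Jm_comp, sub_self, norm_zero]
  refine max_le (mul_le_mul (abs_coord_le v 0) hu (norm_nonneg _) (norm_nonneg _))
    (max_le (mul_le_mul (abs_coord_le v 1) hw (norm_nonneg _) (norm_nonneg _)) (by positivity))

/-- All parameters of the construction. -/
structure AllP (Ψ1 Ψ2 E1 E2 : Hs → ℝ) (C c lam s : ℝ) (F0 : E3 × E3 × E3) (α μ : ℝ) (g : ℝ → ℂ)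
    (Cb K c0 : ℝ) (I : ℕ) : Prop where
  fib : FibP Ψ1 Ψ2 E1 E2 C c lam s F0
  koch : KochP α lam μ s g
  hCb : Cb = 200 * C ^ 2 / α ^ 2
  hK : K = 4 * lam * Cb
  hc0 : c0 = 1 / (16 * lam ^ 2)
  hI1 : 3 * K * s ^ I ≤ c0 / 8
  hI2 : α * I ≤ 1 / 4
  hα3 : 12 * C ^ 2 * α ≤ c0 / (192 * lam)

/-- The vertical part of the embedding. -/
noncomputable def Bp (Ψ1 Ψ2 E1 E2 : Hs → ℝ) (lam s : ℝ) (F0 : E3 × E3 × E3) (α : ℝ) (n : ℕ)
    (p : Hs) : Tg :=
  ∑ k ∈ Finset.range n, Jm (uu α lam k p.1) (uu α lam k p.2.1) (bb Ψ1 Ψ2 E1 E2 lam s F0 k p)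

/-- The horizontal part of the embedding. -/
noncomputable def Kp (α lam s : ℝ) (g : ℝ → ℂ) (K : ℝ) (n : ℕ) (p : Hs) : Tg :=
  (K * kap α lam s g n p.1, K * kap α lam s g n p.2.1, 0)

/-- The pair `p, q` is at scale at most `lam^(-j)`. -/
def At (lam : ℝ) (j : ℕ) (p q : Hs) : Prop :=
  lam ^ j * |q.1 - p.1| ≤ 1 ∧ lam ^ j * |q.2.1 - p.2.1| ≤ 1 ∧ (lam ^ j) ^ 2 * |om p q| ≤ 1

lemma NN_le_of_At {lam : ℝ} (hl : 1 ≤ lam) {p q : Hs} (k d : ℕ) (h : At lam (k + d) p q) :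
    lam ^ d * NN lam k p q ≤ 3 := by
  have h1 : ∀ d, lam ^ d * NN lam k p q ≤ NN lam (k + d) p q := by
    intro d
    induction d with
    | zero => simp
    | succ d ih =>
      rw [pow_succ', mul_assoc, ← add_assoc]
      exact (mul_le_mul_of_nonneg_left ih (by linarith)).trans (NN_succ hl _ p q)
  refine (h1 d).trans ?_
  rw [NN, gN_dil (by positivity)]
  linarith [h.1, h.2.1, h.2.2]

lemma exists_step {P : ℕ → Prop} {a : ℕ} (d : ℕ) (h0 : P a) (h1 : ¬ P (a + d)) :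
    ∃ i, a ≤ i ∧ i < a + d ∧ P i ∧ ¬ P (i + 1) := by
  induction d with
  | zero => exact (h1 h0).elim
  | succ d ih =>
    by_cases h : P (a + d)
    · exact ⟨a + d, by omega, by omega, h, h1⟩
    · obtain ⟨i, h2, h3, h4⟩ := ih h
      exact ⟨i, h2, by omega, h4⟩

variable {Ψ1 Ψ2 E1 E2 : Hs → ℝ} {C c lam s : ℝ} {F0 : E3 × E3 × E3} {α μ : ℝ} {g : ℝ → ℂ}
  {Cb K c0 : ℝ} {I : ℕ}

lemma AllP.one_le_Cb (P : AllP Ψ1 Ψ2 E1 E2 C c lam s F0 α μ g Cb K c0 I) : 1 ≤ Cb := by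
  have h1 := P.koch.hα0
  have h2 := P.koch.hα
  have h3 := P.fib.pat.hC
  rw [P.hCb, le_div_iff₀ (by positivity)]
  nlinarith

lemma AllP.Bup (P : AllP Ψ1 Ψ2 E1 E2 C c lam s F0 α μ g Cb K c0 I) {i n : ℕ} (hin : i ≤ n)
    {p q : Hs} (h : At lam i p q) :
    ‖Bp Ψ1 Ψ2 E1 E2 lam s F0 α n q - Bp Ψ1 Ψ2 E1 E2 lam s F0 α n p‖ ≤ Cb * s ^ i := by
  have hl := P.fib.lam_ge
  have hl0 : 0 < lam := by linarith
  have hs := P.fib.s_pos
  have hC := P.fib.pat.hC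
  have hα0 := P.koch.hα0
  have hα := P.koch.hα
  have hμ1 := P.koch.hμ1
  have hα2 : 0 < α ^ 2 := by positivity
  have hμ : 1 < μ := by linarith
  rw [Bp, Bp, ← Finset.sum_sub_distrib, ← Finset.sum_range_add_sum_Ico _ hin]
  refine (norm_add_le _ _).trans ?_
  have hlow := sum_geom_low (r := 1 / μ) (by positivity) (by rw [div_lt_one (by linarith)]; exact hμ)
    (A := 18 * C ^ 2 * s ^ i) (by positivity)
    (fun k => ‖Jm (uu α lam k q.1) (uu α lam k q.2.1) (bb Ψ1 Ψ2 E1 E2 lam s F0 k q) -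
      Jm (uu α lam k p.1) (uu α lam k p.2.1) (bb Ψ1 Ψ2 E1 E2 lam s F0 k p)‖) i (by
      intro k hk
      obtain ⟨d, rfl⟩ := Nat.exists_eq_add_of_le hk.le
      have hN := NN_le_of_At (by linarith) k d h
      have hN0 := NN_nonneg lam k p q
      have hu : ∀ z z' : ℝ, lam ^ k * |z' - z| ≤ NN lam k p q →
          ‖uu α lam k z' - uu α lam k z‖ ≤ NN lam k p q := by
        intro z z' hz
        refine (uu_lip hα0.le (by linarith) k z z').trans (le_trans ?_ hz)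
        apply mul_le_mul_of_nonneg_right _ (abs_nonneg _)
        have : lam ^ k / lam ≤ lam ^ k := div_le_self (by positivity) (by linarith)
        have h0 : 0 ≤ lam ^ k / lam := by positivity
        nlinarith
      have hNN : NN lam k p q = lam ^ k * |q.1 - p.1| + lam ^ k * |q.2.1 - p.2.1| +
        (lam ^ k) ^ 2 * |om p q| := by rw [NN, gN_dil (by positivity)]
      have a1 : 0 ≤ lam ^ k * |q.1 - p.1| := by positivity
      have a2 : 0 ≤ lam ^ k * |q.2.1 - p.2.1| := by positivity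
      have a3 : 0 ≤ (lam ^ k) ^ 2 * |om p q| := by positivity
      have t1 := norm_Jm_sub_Jm (hu p.1 q.1 (by linarith)) (hu p.2.1 q.2.1 (by linarith))
        (bb Ψ1 Ψ2 E1 E2 lam s F0 k q)
      have t2 := norm_Jm_le (norm_uu α lam k p.1) (norm_uu α lam k p.2.1)
        (bb Ψ1 Ψ2 E1 E2 lam s F0 k q - bb Ψ1 Ψ2 E1 E2 lam s F0 k p)
      rw [Jm_sub] at t2
      have t3 := P.fib.bb_lip k p q
      have t4 := mul_le_mul_of_nonneg_right (P.fib.norm_bb k q) hN0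
      refine (norm_sub_le_norm_sub_add_norm_sub _
        (Jm (uu α lam k p.1) (uu α lam k p.2.1) (bb Ψ1 Ψ2 E1 E2 lam s F0 k q)) _).trans ?_
      have t5 : 2 * C * s ^ k * NN lam k p q ≤ 2 * C ^ 2 * s ^ k * NN lam k p q := by
        gcongr; nlinarith
      have t6 : 6 * C ^ 2 * s ^ k * NN lam k p q ≤ 18 * C ^ 2 * s ^ (k + d) * (1 / μ) ^ (k + d - k) := by
        rw [Nat.add_sub_cancel_left, ← P.koch.hs]
        have e : 18 * C ^ 2 * s ^ (k + d) * (1 / (s * lam)) ^ d =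
            6 * C ^ 2 * s ^ k * (3 / lam ^ d) := by
          rw [one_div_pow, mul_pow, pow_add]; field_simp; ring
        rw [e]
        apply mul_le_mul_of_nonneg_left _ (by positivity)
        rw [le_div_iff₀ (by positivity), mul_comm]; exact hN
      linarith)
  have hhigh := sum_geom_high hs.le (by linarith [P.fib.s_le]) (A := 4 * C * s ^ i) (by positivity)
    (fun k => ‖Jm (uu α lam k q.1) (uu α lam k q.2.1) (bb Ψ1 Ψ2 E1 E2 lam s F0 k q) -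
      Jm (uu α lam k p.1) (uu α lam k p.2.1) (bb Ψ1 Ψ2 E1 E2 lam s F0 k p)‖) i n (by
      intro k hk
      refine (norm_sub_le _ _).trans ?_
      rw [mul_assoc, ← pow_add, Nat.add_sub_cancel' hk]
      linarith [P.fib.norm_bb k p, P.fib.norm_bb k q,
        norm_Jm_le (norm_uu α lam k p.1) (norm_uu α lam k p.2.1) (bb Ψ1 Ψ2 E1 E2 lam s F0 k p),
        norm_Jm_le (norm_uu α lam k q.1) (norm_uu α lam k q.2.1) (bb Ψ1 Ψ2 E1 E2 lam s F0 k q)])
  refine (add_le_add ((norm_sum_le _ _).trans hlow) ((norm_sum_le _ _).trans hhigh)).trans ?_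
  have h1 : 1 / μ / (1 - 1 / μ) ≤ 10 / α ^ 2 := by
    have : 1 / μ / (1 - 1 / μ) = 1 / (μ - 1) := by
      have : μ - 1 ≠ 0 := by linarith
      field_simp
    rw [this, div_le_div_iff₀ (by linarith) hα2]
    linarith
  have h2 : 8 * C ≤ 20 * C ^ 2 / α ^ 2 := by
    rw [le_div_iff₀ hα2]
    have : α ^ 2 ≤ 1 := by nlinarith
    nlinarith
  have hsi := pow_pos hs i
  calc _ ≤ 18 * C ^ 2 * s ^ i * (10 / α ^ 2) + 20 * C ^ 2 / α ^ 2 * s ^ i := by
        have := mul_le_mul_of_nonneg_right h2 hsi.le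
        have := mul_le_mul_of_nonneg_left h1 (show 0 ≤ 18 * C ^ 2 * s ^ i by positivity)
        linarith
    _ = _ := by rw [P.hCb]; ring

lemma AllP.Vvar (P : AllP Ψ1 Ψ2 E1 E2 C c lam s F0 α μ g Cb K c0 I) {j n : ℕ} (hjn : j ≤ n)
    (p : Hs) {τ : ℝ} (hτ : 0 ≤ τ) (h1 : (lam ^ j) ^ 2 * τ ≤ 1) :
    ‖Bp Ψ1 Ψ2 E1 E2 lam s F0 α n (vt p τ) - Bp Ψ1 Ψ2 E1 E2 lam s F0 α n p -
      Jm (uu α lam j p.1) (uu α lam j p.2.1) (∑ k ∈ Finset.range n,
        (bb Ψ1 Ψ2 E1 E2 lam s F0 k (vt p τ) - bb Ψ1 Ψ2 E1 E2 lam s F0 k p))‖ ≤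
      12 * C ^ 2 * α * s ^ j := by
  have hl := P.fib.lam_ge
  have hl0 : 0 < lam := by linarith
  have hs := P.fib.s_pos
  have hC := P.fib.pat.hC
  have hα0 := P.koch.hα0
  have hpow : ∀ d : ℕ, (d : ℝ) ≤ 2 ^ d := fun d => by exact_mod_cast Nat.lt_two_pow_self.le
  set Δ : ℕ → E3 := fun k => bb Ψ1 Ψ2 E1 E2 lam s F0 k (vt p τ) - bb Ψ1 Ψ2 E1 E2 lam s F0 k p
    with hΔ
  have e : Bp Ψ1 Ψ2 E1 E2 lam s F0 α n (vt p τ) - Bp Ψ1 Ψ2 E1 E2 lam s F0 α n p -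
      Jm (uu α lam j p.1) (uu α lam j p.2.1) (∑ k ∈ Finset.range n, Δ k) =
      ∑ k ∈ Finset.range n, (Jm (uu α lam k p.1) (uu α lam k p.2.1) (Δ k) -
        Jm (uu α lam j p.1) (uu α lam j p.2.1) (Δ k)) := by
    rw [Bp, Bp, ← Finset.sum_sub_distrib, Jm_sum, ← Finset.sum_sub_distrib]
    refine Finset.sum_congr rfl fun k _ => ?_
    simp only [hΔ]
    rw [Jm_sub (uu α lam k p.1)]
    rfl
  rw [e, ← Finset.sum_range_add_sum_Ico _ hjn]
  refine (norm_add_le _ _).trans ?_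
  have hlow := sum_geom_low (r := 1 / 2) (by norm_num) (by norm_num)
    (A := 4 * C ^ 2 * α * s ^ j) (by positivity)
    (fun k => ‖Jm (uu α lam k p.1) (uu α lam k p.2.1) (Δ k) -
        Jm (uu α lam j p.1) (uu α lam j p.2.1) (Δ k)‖) j (by
      intro k hk
      have t1 := P.fib.bb_vt_low hk.le p hτ
      obtain ⟨d, rfl⟩ := Nat.exists_eq_add_of_le hk.le
      rw [Nat.add_sub_cancel_left] at t1 ⊢
      rw [norm_sub_rev]
      refine (norm_Jm_sub_Jm (uu_level hα0.le k d _) (uu_level hα0.le k d _) _).trans ?_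
      have t2 : (1 / lam) ^ d ≤ (1 / 4) ^ d := by gcongr; linarith
      have t3 : ‖Δ k‖ ≤ 4 * C ^ 2 * s ^ (k + d) * 1 * (1 / 4) ^ d := t1.trans (by gcongr)
      calc _ ≤ 4 * C ^ 2 * s ^ (k + d) * 1 * (1 / 4) ^ d * (α * 2 ^ d) := by
            gcongr; exact hpow d
        _ = 4 * C ^ 2 * α * s ^ (k + d) * ((1 / 4) ^ d * 2 ^ d) := by ring
        _ = _ := by rw [← mul_pow]; norm_num)
  have hhigh := sum_geom_high (r := 2 * s) (by positivity) (by linarith [P.fib.s_le])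
    (A := 4 * C * α * s ^ j) (by positivity)
    (fun k => ‖Jm (uu α lam k p.1) (uu α lam k p.2.1) (Δ k) -
        Jm (uu α lam j p.1) (uu α lam j p.2.1) (Δ k)‖) j n (by
      intro k hk
      have t1 := P.fib.bb_high hk p (vt p τ)
      obtain ⟨d, rfl⟩ := Nat.exists_eq_add_of_le hk
      rw [Nat.add_sub_cancel_left] at t1 ⊢
      refine (norm_Jm_sub_Jm (uu_level hα0.le j d _) (uu_level hα0.le j d _) _).trans ?_
      calc _ ≤ 4 * C * s ^ j * s ^ d * (α * 2 ^ d) := by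
            gcongr; exact hpow d
        _ = _ := by rw [mul_pow]; ring)
  refine (add_le_add ((norm_sum_le _ _).trans hlow) ((norm_sum_le _ _).trans hhigh)).trans ?_
  have : C * α * s ^ j ≤ C ^ 2 * α * s ^ j := by gcongr; nlinarith
  linarith

lemma AllP.K_pos (P : AllP Ψ1 Ψ2 E1 E2 C c lam s F0 α μ g Cb K c0 I) : 0 < K := by
  have := P.one_le_Cb
  have := P.koch.lam_pos
  rw [P.hK]; positivity

lemma AllP.Kup (P : AllP Ψ1 Ψ2 E1 E2 C c lam s F0 α μ g Cb K c0 I) {i n : ℕ} (hin : i ≤ n)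
    {p q : Hs} (h : At lam i p q) :
    ‖Kp α lam s g K n q - Kp α lam s g K n p‖ ≤ 2 * K * s ^ i := by
  have hK := P.K_pos
  have hs := P.koch.s_pos
  have h1 : ∀ z z' : ℝ, lam ^ i * |z' - z| ≤ 1 →
      ‖(K : ℂ) * (kap α lam s g n z' - kap α lam s g n z)‖ ≤ 2 * K * s ^ i := by
    intro z z' hz
    rw [norm_mul, Complex.norm_real, Real.norm_eq_abs, abs_of_pos hK]
    have := mul_le_mul_of_nonneg_left (P.koch.upper z z' hin hz) hK.le
    linarith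
  simp only [Kp, Prod.mk_sub_mk, ← mul_sub, Prod.norm_mk, sub_self, norm_zero]
  exact max_le (h1 _ _ h.1) (max_le (h1 _ _ h.2.1) (by positivity))

lemma AllP.coord (P : AllP Ψ1 Ψ2 E1 E2 C c lam s F0 α μ g Cb K c0 I) {i j n : ℕ}
    (hin : i + 1 ≤ n) (hji : j ≤ i + 1) (hiI : i + 1 ≤ j + I ∨ j = i + 1) (z z' : ℝ)
    (h1 : lam ^ i * |z' - z| ≤ 1) (h2 : 1 ≤ lam ^ (i + 1) * |z' - z|) (β : ℝ) (R : ℂ) :
    2 * Cb * s ^ i - ‖R‖ ≤
      ‖K * (kap α lam s g n z' - kap α lam s g n z) + β * Complex.I * uu α lam j z + R‖ := by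
  have hK := P.K_pos
  have hs := P.koch.s_pos
  have hl0 := P.koch.lam_pos
  have hμ := P.koch.one_le_μ
  obtain ⟨c1, c2⟩ := P.koch.chord z z' hin (by
    rw [pow_succ', mul_assoc]; exact mul_le_of_le_one_right hl0.le h1) h2
  set m := μ ^ (i + 1) * (z' - z) with hm
  have habs : |m| = μ ^ (i + 1) * |z' - z| := by rw [hm, abs_mul, abs_of_pos (by positivity)]
  rw [← habs] at c1 c2
  have hu : ‖uu α lam (i + 1) z - uu α lam j z‖ ≤ 1 / 4 := by
    obtain ⟨d, hd⟩ := Nat.exists_eq_add_of_le hji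
    rw [hd]
    refine (uu_level P.koch.hα0.le j d z).trans ?_
    rcases hiI with h | h
    · refine le_trans ?_ P.hI2
      apply mul_le_mul_of_nonneg_left _ P.koch.hα0.le
      exact_mod_cast (by omega : d ≤ I)
    · rw [show d = 0 by omega]; norm_num
  have e : ((K * m : ℝ) + β * Complex.I) * uu α lam j z =
      (K * (kap α lam s g n z' - kap α lam s g n z) + β * Complex.I * uu α lam j z + R) -
      K * (kap α lam s g n z' - kap α lam s g n z - m * uu α lam (i + 1) z) -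
      (K * m : ℝ) * (uu α lam (i + 1) z - uu α lam j z) - R := by
    push_cast; ring
  have t1 : K * |m| ≤ ‖((K * m : ℝ) + β * Complex.I) * uu α lam j z‖ := by
    rw [norm_mul, norm_uu, mul_one]
    refine le_trans (le_of_eq ?_) (Complex.abs_re_le_norm _)
    simp [abs_mul, abs_of_pos hK]
  rw [e] at t1
  have t2 : ‖(K : ℂ) * (kap α lam s g n z' - kap α lam s g n z - m * uu α lam (i + 1) z)‖ ≤
      K * (1 / 4 * |m|) := by
    rw [norm_mul, Complex.norm_real, Real.norm_eq_abs, abs_of_pos hK]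
    exact mul_le_mul_of_nonneg_left c2 hK.le
  have t3 : ‖((K * m : ℝ) : ℂ) * (uu α lam (i + 1) z - uu α lam j z)‖ ≤ K * |m| * (1 / 4) := by
    rw [norm_mul, Complex.norm_real, Real.norm_eq_abs, abs_mul, abs_of_pos hK]
    exact mul_le_mul_of_nonneg_left hu (by positivity)
  have t4 := t1.trans ((norm_sub_le _ _).trans (add_le_add_left ((norm_sub_le _ _).trans
    (add_le_add_left (norm_sub_le _ _) _)) _))
  have t5 : 4 * Cb * s ^ i ≤ K * |m| := by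
    refine le_trans ?_ (mul_le_mul_of_nonneg_left c1 hK.le)
    have h3 : 4 * Cb * s ^ i * 1 ≤ 4 * Cb * s ^ i * (s * lam) :=
      mul_le_mul_of_nonneg_left P.fib.hs1 (by have := P.one_le_Cb; positivity)
    rw [P.hK, pow_succ]
    linarith
  linarith

/-- The embedding at finite level. -/
noncomputable def FF (Ψ1 Ψ2 E1 E2 : Hs → ℝ) (lam s : ℝ) (F0 : E3 × E3 × E3) (α : ℝ) (g : ℝ → ℂ)
    (K : ℝ) (n : ℕ) (p : Hs) : Tg :=
  Kp α lam s g K n p + Bp Ψ1 Ψ2 E1 E2 lam s F0 α n p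

lemma AllP.upper (P : AllP Ψ1 Ψ2 E1 E2 C c lam s F0 α μ g Cb K c0 I) {i n : ℕ} (hin : i ≤ n)
    {p q : Hs} (h : At lam i p q) :
    ‖FF Ψ1 Ψ2 E1 E2 lam s F0 α g K n q - FF Ψ1 Ψ2 E1 E2 lam s F0 α g K n p‖ ≤ 3 * K * s ^ i := by
  rw [FF, FF, add_sub_add_comm]
  refine (norm_add_le _ _).trans ?_
  have h1 := P.Kup hin h
  have h2 := P.Bup hin h
  have h3 : Cb ≤ K := by
    rw [P.hK]; nlinarith [P.one_le_Cb, P.fib.lam_ge]
  have := mul_le_mul_of_nonneg_right h3 (pow_pos P.koch.s_pos i).le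
  linarith

lemma AllP.lower_horiz (P : AllP Ψ1 Ψ2 E1 E2 C c lam s F0 α μ g Cb K c0 I) {i j n : ℕ}
    (hin : i + 1 ≤ n) (hji : j ≤ i + 1) (hiI : i + 1 ≤ j + I ∨ j = i + 1) {p q : Hs}
    (h1 : lam ^ i * |q.1 - p.1| ≤ 1) (h1' : lam ^ i * |q.2.1 - p.2.1| ≤ 1)
    (h2 : 1 ≤ lam ^ (i + 1) * |q.1 - p.1| ∨ 1 ≤ lam ^ (i + 1) * |q.2.1 - p.2.1|) (v : E3) (R : Tg) :
    2 * Cb * s ^ i - ‖R‖ ≤ ‖Kp α lam s g K n q - Kp α lam s g K n p +
      Jm (uu α lam j p.1) (uu α lam j p.2.1) v + R‖ := by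
  rcases h2 with h2 | h2
  · have := P.coord hin hji hiI p.1 q.1 h1 h2 (v 0) R.1
    refine le_trans (by linarith [norm_fst_le R]) (this.trans (le_trans (le_of_eq ?_)
      (norm_fst_le _)))
    simp only [Kp, Jm, Prod.fst_add, Prod.fst_sub, mul_sub]
  · have := P.coord hin hji hiI p.2.1 q.2.1 h1' h2 (v 1) R.2.1
    refine le_trans (by linarith [norm_fst_le R.2, norm_snd_le R]) (this.trans (le_trans
      (le_of_eq ?_) ((norm_fst_le _).trans (norm_snd_le _))))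
    simp only [Kp, Jm, Prod.fst_add, Prod.fst_sub, Prod.snd_add, Prod.snd_sub, mul_sub]

lemma AllP.lower_vert (P : AllP Ψ1 Ψ2 E1 E2 C c lam s F0 α μ g Cb K c0 I) {j n : ℕ}
    (hjn : j + I + 3 ≤ n) {p q : Hs} (h0 : 0 ≤ om p q) (h : (lam ^ j) ^ 2 * om p q ≤ 1)
    (h' : 1 ≤ (lam ^ (j + 1)) ^ 2 * om p q) (hx : lam ^ (j + 1) * |q.1 - p.1| ≤ 1)
    (hy : lam ^ (j + 1) * |q.2.1 - p.2.1| ≤ 1) :
    c0 / (192 * lam) * s ^ j ≤
      ‖FF Ψ1 Ψ2 E1 E2 lam s F0 α g K n q - FF Ψ1 Ψ2 E1 E2 lam s F0 α g K n p‖ := by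
  have hl := P.fib.lam_ge
  have hl0 : 0 < lam := by linarith
  have hs := P.fib.s_pos
  have hsj := pow_pos hs j
  have hc0 : 0 < c0 := by rw [P.hc0]; positivity
  set q' := vt p (om p q) with hq'
  set v := ∑ k ∈ Finset.range n,
    (bb Ψ1 Ψ2 E1 E2 lam s F0 k q' - bb Ψ1 Ψ2 E1 E2 lam s F0 k p) with hv
  have hfib : c0 * s ^ j ≤ ‖v‖ := by
    have := P.fib.fibre (j := j) (n := n) (by omega) p h0 h h'
    rw [P.hc0, one_div_mul_eq_div]; exact this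
  have hvar := P.Vvar (j := j) (n := n) (by omega) p h0 h
  rw [← hq', ← hv] at hvar
  have hvar' := hvar.trans (mul_le_mul_of_nonneg_right P.hα3 hsj.le)
  have hAt : ∀ i, lam ^ i * |q.1 - p.1| ≤ 1 → lam ^ i * |q.2.1 - p.2.1| ≤ 1 → At lam i q' q :=
    fun i a b => ⟨a, b, by rw [hq', om_vt_om]; simp⟩
  have hK' : Kp α lam s g K n q' = Kp α lam s g K n p := rfl
  have hdiv : c0 / (192 * lam) ≤ c0 / 192 := by gcongr; linarith
  have hdiv' := mul_le_mul_of_nonneg_right hdiv hsj.le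
  have B1 : ∀ i, i ≤ n → lam ^ i * |q.1 - p.1| ≤ 1 → lam ^ i * |q.2.1 - p.2.1| ≤ 1 →
      3 * K * s ^ i ≤ c0 / 8 * s ^ j → c0 / (192 * lam) * s ^ j ≤
      ‖FF Ψ1 Ψ2 E1 E2 lam s F0 α g K n q - FF Ψ1 Ψ2 E1 E2 lam s F0 α g K n p‖ := by
    intro i hi a b hc
    have t1 := P.upper hi (hAt i a b)
    have t2 := le_norm_Jm (norm_uu α lam j p.1) (norm_uu α lam j p.2.1) v
    have e : Jm (uu α lam j p.1) (uu α lam j p.2.1) v =
        (FF Ψ1 Ψ2 E1 E2 lam s F0 α g K n q - FF Ψ1 Ψ2 E1 E2 lam s F0 α g K n p) -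
        (FF Ψ1 Ψ2 E1 E2 lam s F0 α g K n q - FF Ψ1 Ψ2 E1 E2 lam s F0 α g K n q') -
        (Bp Ψ1 Ψ2 E1 E2 lam s F0 α n q' - Bp Ψ1 Ψ2 E1 E2 lam s F0 α n p -
          Jm (uu α lam j p.1) (uu α lam j p.2.1) v) := by
      simp only [FF, hK']; abel
    have t3 := (norm_sub_le _ _).trans (add_le_add_left (norm_sub_le
      (FF Ψ1 Ψ2 E1 E2 lam s F0 α g K n q - FF Ψ1 Ψ2 E1 E2 lam s F0 α g K n p)
      (FF Ψ1 Ψ2 E1 E2 lam s F0 α g K n q - FF Ψ1 Ψ2 E1 E2 lam s F0 α g K n q'))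
      ‖Bp Ψ1 Ψ2 E1 E2 lam s F0 α n q' - Bp Ψ1 Ψ2 E1 E2 lam s F0 α n p -
          Jm (uu α lam j p.1) (uu α lam j p.2.1) v‖)
    rw [← e] at t3
    have : 0 < c0 * s ^ j := by positivity
    linarith
  by_cases hI : lam ^ (j + I) * |q.1 - p.1| ≤ 1 ∧ lam ^ (j + I) * |q.2.1 - p.2.1| ≤ 1
  · apply B1 (j + I) (by omega) hI.1 hI.2
    have := mul_le_mul_of_nonneg_right P.hI1 hsj.le
    rw [pow_add]; linarith
  · have hI0 : 1 ≤ I := by
      by_contra hI0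
      have hI0 : I = 0 := by omega
      apply hI
      rw [hI0, add_zero]
      have : lam ^ j ≤ lam ^ (j + 1) := pow_le_pow_right₀ (by linarith) (by omega)
      exact ⟨(mul_le_mul_of_nonneg_right this (abs_nonneg _)).trans hx,
        (mul_le_mul_of_nonneg_right this (abs_nonneg _)).trans hy⟩
    obtain ⟨i, hi1, hi2, hi3, hi4⟩ := exists_step
      (P := fun i => lam ^ i * |q.1 - p.1| ≤ 1 ∧ lam ^ i * |q.2.1 - p.2.1| ≤ 1) (a := j + 1) (I - 1)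
      ⟨hx, hy⟩ (by rwa [show j + 1 + (I - 1) = j + I by omega])
    by_cases hc : 3 * K * s ^ i ≤ c0 / 8 * s ^ j
    · exact B1 i (by omega) hi3.1 hi3.2 hc
    · push Not at hc
      have t1 := P.lower_horiz (i := i) (j := j) (n := n) (by omega) (by omega) (Or.inl (by omega))
        hi3.1 hi3.2 (by
          by_contra hcon
          push Not at hcon
          exact hi4 ⟨hcon.1.le, hcon.2.le⟩) v
        ((Bp Ψ1 Ψ2 E1 E2 lam s F0 α n q - Bp Ψ1 Ψ2 E1 E2 lam s F0 α n q') +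
          (Bp Ψ1 Ψ2 E1 E2 lam s F0 α n q' - Bp Ψ1 Ψ2 E1 E2 lam s F0 α n p -
            Jm (uu α lam j p.1) (uu α lam j p.2.1) v))
      have t2 := P.Bup (n := n) (by omega) (hAt i hi3.1 hi3.2)
      have t3 := norm_add_le (Bp Ψ1 Ψ2 E1 E2 lam s F0 α n q - Bp Ψ1 Ψ2 E1 E2 lam s F0 α n q')
        (Bp Ψ1 Ψ2 E1 E2 lam s F0 α n q' - Bp Ψ1 Ψ2 E1 E2 lam s F0 α n p -
            Jm (uu α lam j p.1) (uu α lam j p.2.1) v)
      have e : Kp α lam s g K n q - Kp α lam s g K n p + Jm (uu α lam j p.1) (uu α lam j p.2.1) v +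
          ((Bp Ψ1 Ψ2 E1 E2 lam s F0 α n q - Bp Ψ1 Ψ2 E1 E2 lam s F0 α n q') +
          (Bp Ψ1 Ψ2 E1 E2 lam s F0 α n q' - Bp Ψ1 Ψ2 E1 E2 lam s F0 α n p -
            Jm (uu α lam j p.1) (uu α lam j p.2.1) v)) =
          FF Ψ1 Ψ2 E1 E2 lam s F0 α g K n q - FF Ψ1 Ψ2 E1 E2 lam s F0 α g K n p := by
        simp only [FF]; abel
      rw [e] at t1
      have t4 : 2 * (c0 / (192 * lam) * s ^ j) ≤ Cb * s ^ i := by
        have e2 : 2 * (c0 / (192 * lam) * s ^ j) = c0 / 8 * s ^ j / (12 * lam) := by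
          field_simp; ring
        rw [e2, div_le_iff₀ (by positivity)]
        rw [P.hK] at hc
        linarith
      linarith

lemma om_symm (p q : Hs) : om q p = -om p q := by simp only [om]; ring

lemma AllP.lower (P : AllP Ψ1 Ψ2 E1 E2 C c lam s F0 α μ g Cb K c0 I) {j n : ℕ}
    (hjn : j + I + 3 ≤ n) {p q : Hs} (h : At lam j p q)
    (h' : 1 ≤ lam ^ (j + 1) * |q.1 - p.1| ∨ 1 ≤ lam ^ (j + 1) * |q.2.1 - p.2.1| ∨
      1 ≤ (lam ^ (j + 1)) ^ 2 * |om p q|) :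
    c0 / (192 * lam) * s ^ j ≤
      ‖FF Ψ1 Ψ2 E1 E2 lam s F0 α g K n q - FF Ψ1 Ψ2 E1 E2 lam s F0 α g K n p‖ := by
  have hl := P.fib.lam_ge
  have hsj := pow_pos P.fib.s_pos j
  by_cases hA : 1 ≤ lam ^ (j + 1) * |q.1 - p.1| ∨ 1 ≤ lam ^ (j + 1) * |q.2.1 - p.2.1|
  · have t1 := P.lower_horiz (i := j) (j := j + 1) (n := n) (by omega) le_rfl (Or.inr rfl) h.1 h.2.1
      hA 0 (Bp Ψ1 Ψ2 E1 E2 lam s F0 α n q - Bp Ψ1 Ψ2 E1 E2 lam s F0 α n p)
    have t2 := P.Bup (n := n) (by omega) h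
    have e : Kp α lam s g K n q - Kp α lam s g K n p +
        Jm (uu α lam (j + 1) p.1) (uu α lam (j + 1) p.2.1) 0 +
        (Bp Ψ1 Ψ2 E1 E2 lam s F0 α n q - Bp Ψ1 Ψ2 E1 E2 lam s F0 α n p) =
        FF Ψ1 Ψ2 E1 E2 lam s F0 α g K n q - FF Ψ1 Ψ2 E1 E2 lam s F0 α g K n p := by
      have : Jm (uu α lam (j + 1) p.1) (uu α lam (j + 1) p.2.1) 0 = 0 := by simp [Jm]
      simp only [FF, this]; abel
    rw [e] at t1
    have t3 : c0 / (192 * lam) ≤ Cb := by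
      refine le_trans ?_ P.one_le_Cb
      rw [P.hc0, div_le_one (by positivity), div_le_iff₀ (by positivity)]
      nlinarith [sq_nonneg lam, mul_pos (show 0 < lam by linarith) (show 0 < lam ^ 2 by positivity)]
    have := mul_le_mul_of_nonneg_right t3 hsj.le
    linarith
  · have h3 : 1 ≤ (lam ^ (j + 1)) ^ 2 * |om p q| := by tauto
    push Not at hA
    rcases le_total 0 (om p q) with h0 | h0
    · have h4 := h.2.2
      rw [abs_of_nonneg h0] at h3 h4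
      exact P.lower_vert hjn h0 h4 h3 hA.1.le hA.2.le
    · have h4 := h.2.2
      rw [abs_of_nonpos h0, ← om_symm] at h3 h4
      rw [norm_sub_rev]
      exact P.lower_vert hjn (by rw [om_symm]; linarith) h4 h3
        (by rw [abs_sub_comm]; exact hA.1.le) (by rw [abs_sub_comm]; exact hA.2.le)

end Pool.Agent.Work.MP_689d9c_gt
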