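import Pool.Agent.Work.MP_689d9c_gt.Pattern

set_option autoImplicit false

namespace Pool.Agent.Work.MP_689d9c_gt

open Real RealInnerProductSpace

variable {V : Type*} [NormedAddCommGroup V] [InnerProductSpace ℝ V]

/-- An orthonormal triple. -/
structure ON (F : V × V × V) : Prop where
  n1 : ‖F.1‖ = 1
  n2 : ‖F.2.1‖ = 1
  n3 : ‖F.2.2‖ = 1
  o12 : ⟪F.1, F.2.1⟫ = 0
  o13 : ⟪F.1, F.2.2⟫ = 0
  o23 : ⟪F.2.1, F.2.2⟫ = 0

lemma inner_comb {n m : V} (hn : ‖n‖ = 1) (hm : ‖m‖ = 1) (h : ⟪n, m⟫ = 0) (a b c d : ℝ) :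
    ⟪a • n + b • m, c • n + d • m⟫ = a * c + b * d := by
  have h' : ⟪m, n⟫ = 0 := by rw [real_inner_comm, h]
  simp only [inner_add_left, inner_add_right, real_inner_smul_left, real_inner_smul_right, h, h',
    real_inner_self_eq_norm_sq, hn, hm]
  ring

lemma norm_comb_sq {n m : V} (hn : ‖n‖ = 1) (hm : ‖m‖ = 1) (h : ⟪n, m⟫ = 0) (a b : ℝ) :
    ‖a • n + b • m‖ ^ 2 = a ^ 2 + b ^ 2 := by
  rw [← real_inner_self_eq_norm_sq, inner_comb hn hm h]; ring

lemma norm_comb_le {n m : V} {D : ℝ} (hn : ‖n‖ ≤ D) (hm : ‖m‖ ≤ D) (a b : ℝ) :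
    ‖a • n + b • m‖ ≤ (|a| + |b|) * D := by
  refine (norm_add_le _ _).trans ?_
  rw [norm_smul, norm_smul, Real.norm_eq_abs, Real.norm_eq_abs, add_mul]
  gcongr

lemma comb_sub (n m n' m' : V) (a b a' b' : ℝ) : a' • n' + b' • m' - (a • n + b • m) =
    ((a' - a) • n + (b' - b) • m) + (a' • (n' - n) + b' • (m' - m)) := by module

/-- The moving frames. -/
noncomputable def fr (E1 E2 : Hs → ℝ) (lam : ℝ) (F0 : V × V × V) : ℕ → Hs → V × V × V
  | 0, _ => F0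
  | k + 1, p =>
    (E1 (dil (lam ^ k) p) • (fr E1 E2 lam F0 k p).2.1 + E2 (dil (lam ^ k) p) • (fr E1 E2 lam F0 k p).2.2,
      (fr E1 E2 lam F0 k p).1,
      (-E2 (dil (lam ^ k) p)) • (fr E1 E2 lam F0 k p).2.1 +
        E1 (dil (lam ^ k) p) • (fr E1 E2 lam F0 k p).2.2)

/-- The level `k` term of the fibre map. -/
noncomputable def bb (Ψ1 Ψ2 E1 E2 : Hs → ℝ) (lam s : ℝ) (F0 : V × V × V) (k : ℕ) (p : Hs) : V :=
  s ^ k • (Ψ1 (dil (lam ^ k) p) • (fr E1 E2 lam F0 k p).2.1 +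
    Ψ2 (dil (lam ^ k) p) • (fr E1 E2 lam F0 k p).2.2)

/-- The gauge at level `k`. -/
noncomputable def NN (lam : ℝ) (k : ℕ) (p q : Hs) : ℝ := gN (dil (lam ^ k) p) (dil (lam ^ k) q)

lemma NN_nonneg (lam : ℝ) (k : ℕ) (p q : Hs) : 0 ≤ NN lam k p q := gN_nonneg _ _

lemma NN_succ {lam : ℝ} (hl : 1 ≤ lam) (k : ℕ) (p q : Hs) :
    lam * NN lam k p q ≤ NN lam (k + 1) p q := by
  have h0 : 0 ≤ lam := by linarith
  rw [NN, NN, gN_dil (pow_nonneg h0 _), gN_dil (pow_nonneg h0 _), pow_succ lam k]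
  have h1 : 0 ≤ lam * (lam ^ k) ^ 2 * |om p q| := by positivity
  nlinarith

lemma NN_vt {lam : ℝ} (k : ℕ) (p : Hs) {τ : ℝ} (hτ : 0 ≤ τ) :
    NN lam k p (vt p τ) = (lam ^ k) ^ 2 * τ := by
  rw [NN, dil_vt, gN_vt, abs_of_nonneg (by positivity)]

/-- Standing hypotheses for the fibre map. -/
structure FibP (Ψ1 Ψ2 E1 E2 : Hs → ℝ) (C c lam s : ℝ) (F0 : V × V × V) : Prop where
  pat : PatP Ψ1 Ψ2 E1 E2 C c
  on0 : ON F0
  hl1 : 5000 * C ^ 2 ≤ lam
  hl2 : 2000 * C ^ 3 ≤ c * lam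
  hs1 : 1 ≤ s * lam
  hs2 : s * lam ≤ 2

variable {Ψ1 Ψ2 E1 E2 : Hs → ℝ} {C c lam s : ℝ} {F0 : V × V × V}

lemma FibP.lam_ge (P : FibP Ψ1 Ψ2 E1 E2 C c lam s F0) : 5000 ≤ lam := by
  nlinarith [P.hl1, P.pat.hC]

lemma FibP.s_pos (P : FibP Ψ1 Ψ2 E1 E2 C c lam s F0) : 0 < s := by
  have := P.hs1; have := P.lam_ge
  by_contra h
  nlinarith

lemma FibP.s_le (P : FibP Ψ1 Ψ2 E1 E2 C c lam s F0) : s ≤ 1 / 1000 := by
  have := P.hs2; have := P.lam_ge; have := P.s_pos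
  nlinarith

lemma FibP.absE (P : FibP Ψ1 Ψ2 E1 E2 C c lam s F0) (p : Hs) : |E1 p| ≤ 1 ∧ |E2 p| ≤ 1 := by
  have := P.pat.unit p
  constructor <;> apply abs_le_one_iff_mul_self_le_one.2 <;> nlinarith [sq_nonneg (E1 p),
    sq_nonneg (E2 p)]

lemma FibP.on (P : FibP Ψ1 Ψ2 E1 E2 C c lam s F0) (k : ℕ) (p : Hs) : ON (fr E1 E2 lam F0 k p) := by
  induction k with
  | zero => exact P.on0
  | succ k ih =>
    have hu := P.pat.unit (dil (lam ^ k) p)
    have h21 : ⟪(fr E1 E2 lam F0 k p).2.1, (fr E1 E2 lam F0 k p).1⟫ = 0 := by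
      rw [real_inner_comm, ih.o12]
    have h31 : ⟪(fr E1 E2 lam F0 k p).2.2, (fr E1 E2 lam F0 k p).1⟫ = 0 := by
      rw [real_inner_comm, ih.o13]
    refine ⟨?_, ih.n1, ?_, ?_, ?_, ?_⟩
    · simp only [fr]
      rw [← sq_eq_sq₀ (norm_nonneg _) zero_le_one, norm_comb_sq ih.n2 ih.n3 ih.o23, hu, one_pow]
    · simp only [fr]
      rw [← sq_eq_sq₀ (norm_nonneg _) zero_le_one, norm_comb_sq ih.n2 ih.n3 ih.o23, one_pow]
      linarith
    · simp only [fr, inner_add_left, real_inner_smul_left, h21, h31]; ring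
    · simp only [fr]
      rw [inner_comb ih.n2 ih.n3 ih.o23]; ring
    · simp only [fr, inner_add_right, real_inner_smul_right, ih.o12, ih.o13]; ring

/-- All three frame vectors move by at most `D`. -/
def Close (F G : V × V × V) (D : ℝ) : Prop :=
  ‖G.1 - F.1‖ ≤ D ∧ ‖G.2.1 - F.2.1‖ ≤ D ∧ ‖G.2.2 - F.2.2‖ ≤ D

lemma FibP.close_step (P : FibP Ψ1 Ψ2 E1 E2 C c lam s F0) (k : ℕ) (p q : Hs)
    (h : Close (fr E1 E2 lam F0 k p) (fr E1 E2 lam F0 k q) (4 * C * (NN lam k p q / lam))) :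
    Close (fr E1 E2 lam F0 (k + 1) p) (fr E1 E2 lam F0 (k + 1) q) (4 * C * NN lam k p q) := by
  have hl := P.lam_ge
  have hC := P.pat.hC
  have hN := NN_nonneg lam k p q
  have h1 : NN lam k p q / lam ≤ NN lam k p q / 4 := by gcongr; linarith
  have h2 : 4 * C * (NN lam k p q / lam) ≤ C * NN lam k p q := by nlinarith
  have h3 : 0 ≤ C * NN lam k p q := by positivity
  have on := P.on k p
  have e1 := P.pat.e1 (dil (lam ^ k) p) (dil (lam ^ k) q)
  have e2 := P.pat.e2 (dil (lam ^ k) p) (dil (lam ^ k) q)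
  obtain ⟨a1, a2⟩ := P.absE (dil (lam ^ k) q)
  change _ ≤ C * NN lam k p q at e1 e2
  refine ⟨?_, h.1.trans (by linarith), ?_⟩
  · simp only [fr]
    rw [comb_sub]
    refine (norm_add_le _ _).trans ?_
    have t1 := norm_comb_le on.n2.le on.n3.le (E1 (dil (lam ^ k) q) - E1 (dil (lam ^ k) p))
      (E2 (dil (lam ^ k) q) - E2 (dil (lam ^ k) p))
    have t2 := norm_comb_le (h.2.1.trans h2) (h.2.2.trans h2) (E1 (dil (lam ^ k) q))
      (E2 (dil (lam ^ k) q))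
    nlinarith
  · simp only [fr]
    rw [comb_sub]
    refine (norm_add_le _ _).trans ?_
    have t1 := norm_comb_le on.n2.le on.n3.le (-E2 (dil (lam ^ k) q) - -E2 (dil (lam ^ k) p))
      (E1 (dil (lam ^ k) q) - E1 (dil (lam ^ k) p))
    have t2 := norm_comb_le (h.2.1.trans h2) (h.2.2.trans h2) (-E2 (dil (lam ^ k) q))
      (E1 (dil (lam ^ k) q))
    rw [neg_sub_neg, abs_sub_comm] at t1
    rw [abs_neg] at t2
    rw [neg_sub_neg]
    nlinarith

lemma FibP.close (P : FibP Ψ1 Ψ2 E1 E2 C c lam s F0) (k : ℕ) (p q : Hs) :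
    Close (fr E1 E2 lam F0 k p) (fr E1 E2 lam F0 k q) (4 * C * (NN lam k p q / lam)) := by
  have hl := P.lam_ge
  have hC := P.pat.hC
  induction k with
  | zero =>
    have hN := NN_nonneg lam 0 p q
    have : 0 ≤ 4 * C * (NN lam 0 p q / lam) := by positivity
    simp only [Close, fr, sub_self, norm_zero]
    exact ⟨this, this, this⟩
  | succ k ih =>
    have h := P.close_step k p q ih
    have h1 : NN lam k p q ≤ NN lam (k + 1) p q / lam := by
      rw [le_div_iff₀ (by linarith), mul_comm]; exact NN_succ (by linarith) k p q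
    have h2 : 4 * C * NN lam k p q ≤ 4 * C * (NN lam (k + 1) p q / lam) := by gcongr
    exact ⟨h.1.trans h2, h.2.1.trans h2, h.2.2.trans h2⟩

lemma FibP.close_succ (P : FibP Ψ1 Ψ2 E1 E2 C c lam s F0) (k : ℕ) (p q : Hs) :
    Close (fr E1 E2 lam F0 (k + 1) p) (fr E1 E2 lam F0 (k + 1) q) (4 * C * NN lam k p q) :=
  P.close_step k p q (P.close k p q)

lemma FibP.absΨ (P : FibP Ψ1 Ψ2 E1 E2 C c lam s F0) (p : Hs) : |Ψ1 p| + |Ψ2 p| ≤ 2 * C := by
  linarith [P.pat.b1 p, P.pat.b2 p, P.pat.hC]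

lemma FibP.norm_bb (P : FibP Ψ1 Ψ2 E1 E2 C c lam s F0) (k : ℕ) (p : Hs) :
    ‖bb Ψ1 Ψ2 E1 E2 lam s F0 k p‖ ≤ 2 * C * s ^ k := by
  have hs := pow_pos P.s_pos k
  rw [bb, norm_smul, Real.norm_eq_abs, abs_of_pos hs, mul_comm]
  apply mul_le_mul_of_nonneg_right _ hs.le
  refine (norm_comb_le (P.on k p).n2.le (P.on k p).n3.le _ _).trans ?_
  rw [mul_one]; exact P.absΨ _

lemma FibP.bb_sub (P : FibP Ψ1 Ψ2 E1 E2 C c lam s F0) (k : ℕ) (p q : Hs) {D : ℝ}
    (h : Close (fr E1 E2 lam F0 k p) (fr E1 E2 lam F0 k q) D) :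
    ∃ R : V, ‖R‖ ≤ 2 * C * D ∧
      bb Ψ1 Ψ2 E1 E2 lam s F0 k q - bb Ψ1 Ψ2 E1 E2 lam s F0 k p =
        s ^ k • (((Ψ1 (dil (lam ^ k) q) - Ψ1 (dil (lam ^ k) p)) • (fr E1 E2 lam F0 k p).2.1 +
          (Ψ2 (dil (lam ^ k) q) - Ψ2 (dil (lam ^ k) p)) • (fr E1 E2 lam F0 k p).2.2) + R) := by
  refine ⟨_, ?_, by rw [bb, bb, ← smul_sub, comb_sub]⟩
  refine (norm_comb_le h.2.1 h.2.2 _ _).trans ?_
  exact mul_le_mul_of_nonneg_right (P.absΨ _) ((norm_nonneg _).trans h.1)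

lemma FibP.bb_lip (P : FibP Ψ1 Ψ2 E1 E2 C c lam s F0) (k : ℕ) (p q : Hs) :
    ‖bb Ψ1 Ψ2 E1 E2 lam s F0 k q - bb Ψ1 Ψ2 E1 E2 lam s F0 k p‖ ≤
      4 * C ^ 2 * s ^ k * NN lam k p q := by
  obtain ⟨R, hR, e⟩ := P.bb_sub k p q (P.close k p q)
  have hs := pow_pos P.s_pos k
  have hl := P.lam_ge
  have hC := P.pat.hC
  have hN := NN_nonneg lam k p q
  rw [e, norm_smul, Real.norm_eq_abs, abs_of_pos hs, mul_comm (4 * C ^ 2), mul_assoc]
  apply mul_le_mul_of_nonneg_left _ hs.le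
  refine (norm_add_le _ _).trans ?_
  have t1 := norm_comb_le (P.on k p).n2.le (P.on k p).n3.le
    (Ψ1 (dil (lam ^ k) q) - Ψ1 (dil (lam ^ k) p)) (Ψ2 (dil (lam ^ k) q) - Ψ2 (dil (lam ^ k) p))
  have e1 := P.pat.l1 (dil (lam ^ k) p) (dil (lam ^ k) q)
  have e2 := P.pat.l2 (dil (lam ^ k) p) (dil (lam ^ k) q)
  change _ ≤ C * NN lam k p q at e1 e2
  have h1 : NN lam k p q / lam ≤ NN lam k p q / 4 := by gcongr; linarith
  have h2 : 2 * C * (4 * C * (NN lam k p q / lam)) ≤ 2 * C * (4 * C * (NN lam k p q / 4)) := by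
    gcongr
  have h3 : C * NN lam k p q ≤ C * (C * NN lam k p q) :=
    le_mul_of_one_le_left (by positivity) hC
  nlinarith

lemma FibP.bb_vt_low (P : FibP Ψ1 Ψ2 E1 E2 C c lam s F0) {k j : ℕ} (hkj : k ≤ j) (p : Hs) {τ : ℝ}
    (hτ : 0 ≤ τ) :
    ‖bb Ψ1 Ψ2 E1 E2 lam s F0 k (vt p τ) - bb Ψ1 Ψ2 E1 E2 lam s F0 k p‖ ≤
      4 * C ^ 2 * s ^ j * ((lam ^ j) ^ 2 * τ) * (1 / lam) ^ (j - k) := by
  refine (P.bb_lip k p _).trans ?_
  have hl := P.lam_ge
  have hl0 : 0 < lam := by linarith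
  have hs := P.s_pos
  obtain ⟨d, rfl⟩ := Nat.exists_eq_add_of_le hkj
  rw [NN_vt k p hτ, Nat.add_sub_cancel_left]
  have h1 : 1 ≤ (s * lam) ^ d := one_le_pow₀ P.hs1
  have e : 4 * C ^ 2 * s ^ (k + d) * ((lam ^ (k + d)) ^ 2 * τ) * (1 / lam) ^ d =
      4 * C ^ 2 * s ^ k * ((lam ^ k) ^ 2 * τ) * (s * lam) ^ d := by
    rw [one_div_pow, mul_pow, pow_add, pow_add]; field_simp
  rw [e]
  exact le_mul_of_one_le_right (by positivity) h1

lemma FibP.bb_high (P : FibP Ψ1 Ψ2 E1 E2 C c lam s F0) {k j : ℕ} (hkj : j ≤ k) (p q : Hs) :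
    ‖bb Ψ1 Ψ2 E1 E2 lam s F0 k q - bb Ψ1 Ψ2 E1 E2 lam s F0 k p‖ ≤
      4 * C * s ^ j * s ^ (k - j) := by
  refine (norm_sub_le _ _).trans ?_
  rw [mul_assoc, ← pow_add, Nat.add_sub_cancel' hkj]
  linarith [P.norm_bb k p, P.norm_bb k q]

/-- The fibre map is bi-Hoelder along the vertical fibres. -/
lemma FibP.fibre (P : FibP Ψ1 Ψ2 E1 E2 C c lam s F0) {j n : ℕ} (hjn : j + 3 ≤ n) (p : Hs) {τ : ℝ}
    (hτ : 0 ≤ τ) (h1 : (lam ^ j) ^ 2 * τ ≤ 1) (h2 : 1 ≤ (lam ^ (j + 1)) ^ 2 * τ) :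
    s ^ j / (16 * lam ^ 2) ≤ ‖∑ k ∈ Finset.range n,
      (bb Ψ1 Ψ2 E1 E2 lam s F0 k (vt p τ) - bb Ψ1 Ψ2 E1 E2 lam s F0 k p)‖ := by
  have hl := P.lam_ge
  have hl0 : 0 < lam := by linarith
  have hs := P.s_pos
  have hs' := P.s_le
  have hC := P.pat.hC
  have hc := P.pat.hc
  set σ := (lam ^ j) ^ 2 * τ with hσ
  have hσ0 : 0 ≤ σ := by positivity
  have hσl : 1 ≤ lam ^ 2 * σ := by rw [hσ]; convert h2 using 1; ring
  set Δ : ℕ → V := fun k => bb Ψ1 Ψ2 E1 E2 lam s F0 k (vt p τ) - bb Ψ1 Ψ2 E1 E2 lam s F0 k p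
    with hΔ
  have hsj := pow_pos hs j
  -- `t = C^2 / lam` is small
  set t := C ^ 2 / lam with ht
  have ht0 : 0 ≤ t := by positivity
  have ht1 : t ≤ 1 / 5000 := by rw [ht, div_le_iff₀ hl0]; linarith [P.hl1]
  have hCs : C ^ 2 * s ≤ 2 * t := by
    rw [ht, ← mul_div_assoc, le_div_iff₀ hl0]
    nlinarith [P.hs2, sq_nonneg C]
  have hCC : C ≤ C ^ 2 := by nlinarith
  have hlow : ‖∑ k ∈ Finset.range j, Δ k‖ ≤ s ^ j * (8 * t * σ) := by
    refine (norm_sum_le _ _).trans ((sum_geom_low (r := 1 / lam) (by positivity)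
      (by rw [div_lt_one hl0]; linarith) (A := 4 * C ^ 2 * s ^ j * σ) (by positivity) _ j
      (fun k hk => P.bb_vt_low hk.le p hτ)).trans ?_)
    have : 1 / lam / (1 - 1 / lam) ≤ 2 / lam := by
      have h3 : 1 / lam ≤ 1 / 2 := by gcongr; linarith
      rw [div_le_iff₀ (by linarith)]
      have : 0 ≤ 1 / lam := by positivity
      have e : 2 / lam = 2 * (1 / lam) := by ring
      rw [e]; nlinarith
    calc _ ≤ 4 * C ^ 2 * s ^ j * σ * (2 / lam) := by gcongr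
      _ = _ := by rw [ht]; ring
  have hhigh : ∀ i, ‖∑ k ∈ Finset.Ico i n, Δ k‖ ≤ 8 * C * s ^ i := by
    intro i
    refine (norm_sum_le _ _).trans ((sum_geom_high hs.le (by linarith) (A := 4 * C * s ^ i)
      (by positivity) _ i n (fun k hk => P.bb_high hk p _)).trans (le_of_eq (by ring)))
  obtain ⟨R, hR, eR⟩ := P.bb_sub j p (vt p τ) (P.close j p (vt p τ))
  rw [NN_vt j p hτ, ← hσ] at hR
  have hR' : ‖R‖ ≤ 8 * t * σ := hR.trans (le_of_eq (by rw [ht]; ring))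
  rw [dil_vt, ← hσ] at eR
  set Q := dil (lam ^ j) p with hQ
  set a := Ψ1 (vt Q σ) - Ψ1 Q with ha
  set b := Ψ2 (vt Q σ) - Ψ2 Q with hb
  have onj := P.on j p
  change Δ j = _ at eR
  by_cases hsmall : σ ≤ 1 / (16 * C)
  · -- short times: project on the tangent direction
    have split : ∑ k ∈ Finset.range n, Δ k = ∑ k ∈ Finset.range j, Δ k + Δ j + Δ (j + 1) +
        Δ (j + 2) + ∑ k ∈ Finset.Ico (j + 3) n, Δ k := by
      rw [← Finset.sum_range_succ, ← Finset.sum_range_succ, ← Finset.sum_range_succ,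
        Finset.sum_range_add_sum_Ico _ hjn]
    set e := (fr E1 E2 lam F0 (j + 1) p).1 with he
    have on1 := P.on (j + 1) p
    have hen : ‖e‖ = 1 := on1.n1
    have hin : ∀ v : V, -‖v‖ ≤ ⟪e, v⟫ := fun v => by
      have := abs_real_inner_le_norm e v
      rw [hen, one_mul] at this
      exact (abs_le.1 this).1
    have hcl := P.close_succ j p (vt p τ)
    rw [NN_vt j p hτ, ← hσ] at hcl
    have i1 : s ^ j * (σ / 4 - C * σ ^ 2 - 8 * t * σ) ≤ ⟪e, Δ j⟫ := by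
      rw [eR, real_inner_smul_right, inner_add_right]
      apply mul_le_mul_of_nonneg_left _ hsj.le
      have : ⟪e, a • (fr E1 E2 lam F0 j p).2.1 + b • (fr E1 E2 lam F0 j p).2.2⟫ =
          E1 Q * a + E2 Q * b := by
        rw [he]; simp only [fr]; rw [inner_comb onj.n2 onj.n3 onj.o23]
      rw [this]
      have := P.pat.taylor Q σ hσ0
      have := hin R
      linarith
    have i2 : -(s ^ j * (16 * t * σ)) ≤ ⟪e, Δ (j + 1)⟫ := by
      obtain ⟨R1, hR1, eR1⟩ := P.bb_sub (j + 1) p (vt p τ) hcl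
      change Δ (j + 1) = _ at eR1
      rw [eR1, real_inner_smul_right, inner_add_right, inner_add_right, real_inner_smul_right,
        real_inner_smul_right, on1.o12, on1.o13, mul_zero, mul_zero, zero_add, zero_add, pow_succ,
        mul_assoc (s ^ j), ← mul_neg]
      apply mul_le_mul_of_nonneg_left _ hsj.le
      have h3 := hin R1
      have h4 : s * -(2 * C * (4 * C * σ)) ≤ s * ⟪e, R1⟫ :=
        mul_le_mul_of_nonneg_left (by linarith) hs.le
      have h5 := mul_le_mul_of_nonneg_right hCs hσ0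
      nlinarith
    have hs2 : s ^ 2 ≤ 4 * σ := by
      have h3 : (s * lam) ^ 2 ≤ 2 ^ 2 := by gcongr; exact P.hs2
      have h4 : s ^ 2 * 1 ≤ s ^ 2 * (lam ^ 2 * σ) := by gcongr
      nlinarith
    have i3 : -(s ^ j * (8 / 100 * σ + 8 * t * σ)) ≤ ⟪e, Δ (j + 2)⟫ := by
      have key : ∀ q : Hs, ‖(fr E1 E2 lam F0 (j + 1) q).1 - e‖ ≤ 4 * C * σ →
          |⟪e, bb Ψ1 Ψ2 E1 E2 lam s F0 (j + 2) q⟫| ≤ s ^ (j + 2) * (1 / 100 + 4 * C ^ 2 * σ) := by
        intro q hq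
        have on2 := P.on (j + 2) q
        rw [bb, real_inner_smul_right, abs_mul, abs_of_pos (pow_pos hs _)]
        apply mul_le_mul_of_nonneg_left _ (pow_pos hs _).le
        rw [inner_add_right, real_inner_smul_right, real_inner_smul_right]
        refine (abs_add_le _ _).trans (add_le_add ?_ ?_)
        · rw [abs_mul]
          have := abs_real_inner_le_norm e (fr E1 E2 lam F0 (j + 2) q).2.1
          rw [hen, on2.n2, one_mul] at this
          have := mul_le_mul (P.pat.b1 (dil (lam ^ (j + 2)) q)) this (abs_nonneg _) (by norm_num)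
          linarith
        · rw [abs_mul]
          have h3 : ⟪e, (fr E1 E2 lam F0 (j + 2) q).2.2⟫ =
              -⟪(fr E1 E2 lam F0 (j + 1) q).1 - e, (fr E1 E2 lam F0 (j + 2) q).2.2⟫ := by
            have h4 : ⟪(fr E1 E2 lam F0 (j + 1) q).1, (fr E1 E2 lam F0 (j + 2) q).2.2⟫ = 0 :=
              on2.o23
            rw [inner_sub_left, h4]; ring
          have h5 := abs_real_inner_le_norm ((fr E1 E2 lam F0 (j + 1) q).1 - e)
            (fr E1 E2 lam F0 (j + 2) q).2.2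
          rw [on2.n3, mul_one] at h5
          rw [h3, abs_neg]
          have := mul_le_mul (P.pat.b2 (dil (lam ^ (j + 2)) q)) (h5.trans hq) (abs_nonneg _)
            (by linarith)
          linarith
      have k1 := (abs_le.1 (key (vt p τ) hcl.1)).1
      have k2 := (abs_le.1 (key p (by rw [he, sub_self, norm_zero]; positivity))).2
      simp only [hΔ]
      rw [inner_sub_right]
      have h3 : s ^ 2 * (1 / 100 + 4 * C ^ 2 * σ) ≤ 4 / 100 * σ + 4 * t * σ := by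
        have h4 := mul_le_mul_of_nonneg_right hCs hσ0
        have h5 : s * (C ^ 2 * s * σ) ≤ 1 / 1000 * (2 * t * σ) :=
          mul_le_mul hs' h4 (by positivity) (by norm_num)
        have h6 : 0 ≤ t * σ := by positivity
        nlinarith
      have h4 := mul_le_mul_of_nonneg_left h3 hsj.le
      rw [pow_add] at k1 k2
      nlinarith
    have i4 : 8 * C * s ^ (j + 3) ≤ s ^ j * (64 * t * σ) := by
      have h3 : C * s ≤ 2 * t := le_trans (by gcongr) hCs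
      have h4 := mul_le_mul h3 hs2 (sq_nonneg s) (by positivity)
      have h5 := mul_le_mul_of_nonneg_left h4 hsj.le
      rw [pow_add]
      nlinarith
    have i5 := real_inner_le_norm e (∑ k ∈ Finset.range n, Δ k)
    rw [hen, one_mul] at i5
    refine le_trans ?_ i5
    rw [split, inner_add_right, inner_add_right, inner_add_right, inner_add_right]
    have j1 := hin (∑ k ∈ Finset.range j, Δ k)
    have j2 := hin (∑ k ∈ Finset.Ico (j + 3) n, Δ k)
    have j3 := hhigh (j + 3)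
    have j4 : C * σ ^ 2 ≤ σ / 16 := by
      rw [le_div_iff₀ (by positivity)] at hsmall
      nlinarith
    have j5 : t * σ ≤ 1 / 5000 * σ := mul_le_mul_of_nonneg_right ht1 hσ0
    have j6 : s ^ j * (σ / 16) ≤ s ^ j * (σ / 4 - C * σ ^ 2 - 8 * t * σ - 16 * t * σ -
        (8 / 100 * σ + 8 * t * σ) - 64 * t * σ - 8 * t * σ) :=
      mul_le_mul_of_nonneg_left (by linarith) hsj.le
    have j7 : s ^ j / (16 * lam ^ 2) ≤ s ^ j * (σ / 16) := by
      rw [div_le_iff₀ (by positivity)]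
      have := mul_le_mul_of_nonneg_left hσl hsj.le
      nlinarith
    linarith
  · -- long times: the pattern itself separates the points
    push Not at hsmall
    have split : ∑ k ∈ Finset.range n, Δ k = ∑ k ∈ Finset.range j, Δ k + Δ j +
        ∑ k ∈ Finset.Ico (j + 1) n, Δ k := by
      rw [← Finset.sum_range_succ, Finset.sum_range_add_sum_Ico _ (by omega)]
    have w1 : c * σ ≤ ‖a • (fr E1 E2 lam F0 j p).2.1 + b • (fr E1 E2 lam F0 j p).2.2‖ := by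
      have h3 := norm_comb_sq onj.n2 onj.n3 onj.o23 a b
      apply le_of_sq_le_sq _ (norm_nonneg _)
      rw [h3]
      have h4 : 0 ≤ c * σ := by positivity
      rcases P.pat.window Q σ hσ0 h1 with h | h
      · have := pow_le_pow_left₀ h4 h 2
        rw [sq_abs] at this
        nlinarith [sq_nonneg b]
      · have := pow_le_pow_left₀ h4 h 2
        rw [sq_abs] at this
        nlinarith [sq_nonneg a]
    have w2 : s ^ j * (c * σ - 8 * t * σ) ≤ ‖Δ j‖ := by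
      rw [eR, norm_smul, Real.norm_eq_abs, abs_of_pos hsj]
      apply mul_le_mul_of_nonneg_left _ hsj.le
      have := norm_le_norm_add_norm_sub' (a • (fr E1 E2 lam F0 j p).2.1 +
        b • (fr E1 E2 lam F0 j p).2.2) (a • (fr E1 E2 lam F0 j p).2.1 +
        b • (fr E1 E2 lam F0 j p).2.2 + R)
      rw [sub_add_cancel_left, norm_neg] at this
      linarith
    have w3 : ‖Δ j‖ ≤ ‖∑ k ∈ Finset.range n, Δ k‖ + ‖∑ k ∈ Finset.range j, Δ k‖ +
        ‖∑ k ∈ Finset.Ico (j + 1) n, Δ k‖ := by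
      have : Δ j = ∑ k ∈ Finset.range n, Δ k - ∑ k ∈ Finset.range j, Δ k -
          ∑ k ∈ Finset.Ico (j + 1) n, Δ k := by rw [split]; abel
      rw [this]
      exact (norm_sub_le _ _).trans (add_le_add_left (norm_sub_le _ _) _)
    have w4 := hhigh (j + 1)
    have w5 : 8 * C * s ^ (j + 1) ≤ s ^ j * (16 * t) := by
      have h3 : C * s ≤ 2 * t := le_trans (by gcongr) hCs
      have h5 := mul_le_mul_of_nonneg_left h3 hsj.le
      rw [pow_succ]
      nlinarith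
    have w6 : t * σ ≤ t := mul_le_of_le_one_right ht0 h1
    have w7 : 125 * t ≤ c * σ := by
      have h3 : c * (1 / (16 * C)) ≤ c * σ := by gcongr
      refine le_trans ?_ h3
      rw [ht, mul_one_div, mul_div_assoc', div_le_div_iff₀ hl0 (by positivity)]
      linarith [P.hl2]
    have w8 : 1 / (16 * lam ^ 2) ≤ t := by
      rw [ht, div_le_div_iff₀ (by positivity) hl0]
      have : 1 ≤ C ^ 2 := by nlinarith
      nlinarith
    have w9 : s ^ j * (1 / (16 * lam ^ 2)) ≤ s ^ j * (c * σ - 8 * t * σ - 8 * t * σ - 16 * t) :=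
      mul_le_mul_of_nonneg_left (by linarith) hsj.le
    rw [mul_one_div] at w9
    linarith

end Pool.Agent.Work.MP_689d9c_gt
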