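import Pool.Agent.Work.MP_689d9c_gt.Assemble

set_option autoImplicit false

namespace Pool.Agent.Work.MP_689d9c_gt

open Real Filter Topology

theorem exists_allP : ∃ (Ψ1 Ψ2 E1 E2 : Hs → ℝ) (C c lam s : ℝ) (F0 : E3 × E3 × E3) (α μ : ℝ)
    (g : ℝ → ℂ) (Cb K c0 : ℝ) (I : ℕ), AllP Ψ1 Ψ2 E1 E2 C c lam s F0 α μ g Cb K c0 I := by
  obtain ⟨Ψ1, Ψ2, E1, E2, C, c, pat⟩ := exists_pattern
  have hC := pat.hC
  have hc := pat.hc
  obtain ⟨lam, hl1, hl2⟩ : ∃ lam : ℝ, 5000 * C ^ 2 ≤ lam ∧ 2000 * C ^ 3 ≤ c * lam := by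
    refine ⟨5000 * C ^ 2 + 2000 * C ^ 3 / c, le_add_of_nonneg_right (by positivity), ?_⟩
    rw [mul_add, mul_div_cancel₀ _ hc.ne']
    exact le_add_of_nonneg_left (by positivity)
  have hl : 5000 ≤ lam := by nlinarith
  have hl0 : 0 < lam := by linarith
  obtain ⟨c0, hc0⟩ : ∃ c0 : ℝ, c0 = 1 / (16 * lam ^ 2) := ⟨_, rfl⟩
  have hc0' : 0 < c0 := by rw [hc0]; positivity
  obtain ⟨m0, hm0⟩ := exists_pow_lt_of_lt_one (x := c0 / 8 / (2400 * lam * C ^ 2)) (y := 1 / 2)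
    (by positivity) (by norm_num)
  have t1 : Tendsto (fun m : ℕ => (1 / 2 : ℝ) ^ m) atTop (𝓝 0) :=
    tendsto_pow_atTop_nhds_zero_of_lt_one (by norm_num) (by norm_num)
  have t2 : Tendsto (fun m : ℕ => (m : ℝ) * (1 / 2 : ℝ) ^ m) atTop (𝓝 0) :=
    tendsto_self_mul_const_pow_of_lt_one (by norm_num) (by norm_num)
  have t3 : Tendsto (fun m : ℕ => 2 * ((m : ℝ) * (1 / 2 : ℝ) ^ m) + m0 * (1 / 2 : ℝ) ^ m) atTop
      (𝓝 0) := by
    simpa using (t2.const_mul 2).add (t1.const_mul (m0 : ℝ))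
  have t4 : Tendsto (fun m : ℕ => 12 * C ^ 2 * (1 / 2 : ℝ) ^ m) atTop (𝓝 0) := by
    simpa using t1.const_mul (12 * C ^ 2)
  obtain ⟨m, h1, h2, h3⟩ := ((t1.eventually (ge_mem_nhds (by norm_num : (0 : ℝ) < 1 / 1000))).and
    ((t3.eventually (ge_mem_nhds (by norm_num : (0 : ℝ) < 1 / 4))).and
      (t4.eventually (ge_mem_nhds (by positivity : 0 < c0 / (192 * lam)))))).exists
  set α : ℝ := (1 / 2) ^ m with hα
  have hα0 : 0 < α := by positivity
  obtain ⟨μ, g, hμ1, hμ2, hg, hT⟩ := exists_profile hα0 h1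
  have hs : μ / lam * lam = μ := by field_simp
  have koch : KochP α lam μ (μ / lam) g := ⟨hα0, h1, hl, hμ1, hμ2, hs, hg, hT⟩
  have on0 : ON ((EuclideanSpace.single 0 1, EuclideanSpace.single 1 1,
      EuclideanSpace.single 2 1) : E3 × E3 × E3) := by
    refine ⟨?_, ?_, ?_, ?_, ?_, ?_⟩ <;> simp [EuclideanSpace.inner_single_left]
  refine ⟨Ψ1, Ψ2, E1, E2, C, c, lam, μ / lam, _, α, μ, g, _, _, c0, 2 * m + m0,
    ⟨pat, on0, hl1, hl2, by rw [hs]; exact koch.one_le_μ, by rw [hs]; exact hμ2⟩, koch, rfl, rfl,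
    hc0, ?_, ?_, h3⟩
  · have h4 : (μ / lam) ^ (2 * m + m0) ≤ (1 / 2) ^ (2 * m + m0) :=
      pow_le_pow_left₀ koch.s_pos.le (by linarith [koch.s_le]) _
    rw [lt_div_iff₀ (by positivity)] at hm0
    calc _ ≤ 3 * (4 * lam * (200 * C ^ 2 / α ^ 2)) * (1 / 2) ^ (2 * m + m0) := by gcongr
      _ = (1 / 2) ^ m0 * (2400 * lam * C ^ 2) := by
        rw [pow_add, mul_comm 2 m, pow_mul, ← hα]; field_simp; ring
      _ ≤ _ := hm0.le
  · push_cast
    linarith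

/-- A homogeneous quasi-distance. -/
noncomputable def DD (p q : Hs) : ℝ := max (max |q.1 - p.1| |q.2.1 - p.2.1|) (√|om p q|)

lemma DD_nonneg (p q : Hs) : 0 ≤ DD p q := (Real.sqrt_nonneg _).trans (le_max_right _ _)

lemma DD_dil {r : ℝ} (hr : 0 ≤ r) (p q : Hs) : DD (dil r p) (dil r q) = r * DD p q := by
  rw [DD, DD, om_dil, abs_mul, abs_of_nonneg (sq_nonneg r), Real.sqrt_mul (sq_nonneg r),
    Real.sqrt_sq hr, mul_max_of_nonneg _ _ hr, mul_max_of_nonneg _ _ hr]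
  simp only [dil, ← mul_sub, abs_mul, abs_of_nonneg hr]

lemma DD_pos {p q : Hs} (h : p ≠ q) : 0 < DD p q := by
  by_contra h0
  have h0 : DD p q ≤ 0 := not_lt.1 h0
  have h1 : |q.1 - p.1| ≤ 0 := ((le_max_left _ _).trans (le_max_left _ _)).trans h0
  have h2 : |q.2.1 - p.2.1| ≤ 0 := ((le_max_right _ _).trans (le_max_left _ _)).trans h0
  have h3 : √|om p q| ≤ 0 := (le_max_right _ _).trans h0
  have e1 : q.1 = p.1 := sub_eq_zero.1 (abs_nonpos_iff.1 h1)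
  have e2 : q.2.1 = p.2.1 := sub_eq_zero.1 (abs_nonpos_iff.1 h2)
  have e3 : om p q = 0 := abs_nonpos_iff.1 (Real.sqrt_eq_zero'.1 (le_antisymm h3 (Real.sqrt_nonneg _)))
  apply h
  rw [om, e1, e2] at e3
  exact Prod.ext e1.symm (Prod.ext e2.symm (by linarith))

theorem exists_local : ∃ (ε lam s a b : ℝ) (F : ℕ → Hs → Tg), 0 < ε ∧ ε < 1 ∧ 1 < lam ∧ 0 < s ∧
    0 < a ∧ 0 < b ∧ (∀ (j : ℕ) (D : ℝ), 0 ≤ D → (lam ^ j * D) ^ ε * s ^ j = D ^ ε) ∧
    ∀ (m : ℕ) (p q : Hs), DD p q ≤ 1 → 1 ≤ lam ^ m * DD p q →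
      a * DD p q ^ ε ≤ ‖F m q - F m p‖ ∧ ‖F m q - F m p‖ ≤ b * DD p q ^ ε := by
  obtain ⟨Ψ1, Ψ2, E1, E2, C, c, lam, s, F0, α, μ, g, Cb, K, c0, I, P⟩ := exists_allP
  have hl := P.fib.lam_ge
  have hl0 : 0 < lam := by linarith
  have hl1 : 1 < lam := by linarith
  have hs := P.fib.s_pos
  have hs1 : s < 1 := by linarith [P.fib.s_le]
  have hK := P.K_pos
  have hc0 : 0 < c0 := by rw [P.hc0]; positivity
  have hμ : 1 < s * lam := by
    rw [P.koch.hs]; nlinarith [P.koch.hμ1, pow_pos P.koch.hα0 2]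
  have hlog : 0 < log lam := Real.log_pos hl1
  set ε := -log s / log lam with hε
  have hε0 : 0 < ε := div_pos (neg_pos.2 (Real.log_neg hs hs1)) hlog
  have hε1 : ε < 1 := by
    rw [hε, div_lt_one hlog]
    have := Real.log_pos hμ
    rw [Real.log_mul hs.ne' hl0.ne'] at this
    linarith
  have hsε : lam ^ ε * s = 1 := by
    rw [Real.rpow_def_of_pos hl0, hε, mul_div_cancel₀ _ hlog.ne', Real.exp_neg, Real.exp_log hs]
    field_simp
  have hscale : ∀ (j : ℕ) (D : ℝ), 0 ≤ D → (lam ^ j * D) ^ ε * s ^ j = D ^ ε := by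
    intro j D hD
    rw [Real.mul_rpow (by positivity) hD, ← Real.rpow_natCast, ← Real.rpow_mul hl0.le, mul_comm _ ε,
      Real.rpow_mul hl0.le, Real.rpow_natCast, mul_right_comm, ← mul_pow, hsε, one_pow, one_mul]
  refine ⟨ε, lam, s, c0 / (192 * lam), 3 * K / s,
    fun m => FF Ψ1 Ψ2 E1 E2 lam s F0 α g K (m + I + 3), hε0, hε1, hl1, hs, by positivity,
    by positivity, hscale, fun m p q h1 h2 => ?_⟩
  have hD := DD_nonneg p q
  obtain ⟨j, -, hj, h3, h4⟩ := exists_step (P := fun i => lam ^ i * DD p q ≤ 1) (a := 0) (m + 1)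
    (by simpa using h1) (by
      rw [zero_add, pow_succ', mul_assoc, not_le]
      nlinarith)
  have hlj : 0 ≤ lam ^ j := by positivity
  have hAt : At lam j p q := by
    refine ⟨le_trans ?_ h3, le_trans ?_ h3, ?_⟩
    · exact mul_le_mul_of_nonneg_left ((le_max_left _ _).trans (le_max_left _ _)) hlj
    · exact mul_le_mul_of_nonneg_left ((le_max_right _ _).trans (le_max_left _ _)) hlj
    · have h5 : lam ^ j * √|om p q| ≤ 1 :=
        (mul_le_mul_of_nonneg_left (le_max_right _ _) hlj).trans h3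
      rw [← Real.sq_sqrt (abs_nonneg (om p q)), ← mul_pow]
      exact pow_le_one₀ (by positivity) h5
  push Not at h4
  have hlow := P.lower (j := j) (n := m + I + 3) (by omega) hAt (by
    rcases max_choice (max |q.1 - p.1| |q.2.1 - p.2.1|) (√|om p q|) with h | h
    · rcases max_choice |q.1 - p.1| |q.2.1 - p.2.1| with h' | h'
      · left; rw [DD, h, h'] at h4; exact h4.le
      · right; left; rw [DD, h, h'] at h4; exact h4.le
    · right; right
      rw [DD, h] at h4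
      rw [← Real.sq_sqrt (abs_nonneg (om p q)), ← mul_pow]
      exact one_le_pow₀ h4.le)
  have hup := P.upper (i := j) (n := m + I + 3) (by omega) hAt
  have e1 : DD p q ^ ε ≤ s ^ j := by
    rw [← hscale j _ hD]
    exact mul_le_of_le_one_left (by positivity) (Real.rpow_le_one (by positivity) h3 hε0.le)
  have e2 : s ^ (j + 1) ≤ DD p q ^ ε := by
    rw [← hscale (j + 1) _ hD]
    exact le_mul_of_one_le_left (by positivity) (Real.one_le_rpow h4.le hε0.le)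
  refine ⟨le_trans (by gcongr) hlow, hup.trans ?_⟩
  calc 3 * K * s ^ j = 3 * K / s * s ^ (j + 1) := by rw [pow_succ]; field_simp
    _ ≤ _ := by gcongr

theorem exists_global : ∃ (ε a b : ℝ) (f : Hs → Tg), 0 < ε ∧ ε < 1 ∧ 0 < a ∧ 0 < b ∧
    ∀ p q : Hs, a * DD p q ^ ε ≤ ‖f q - f p‖ ∧ ‖f q - f p‖ ≤ b * DD p q ^ ε := by
  obtain ⟨ε, lam, s, a, b, F, hε0, hε1, hl, hs, ha, hb, hscale, hF⟩ := exists_local
  have hl0 : 0 < lam := by linarith
  let G : ℕ → Hs → Tg := fun N p =>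
    (s ^ N)⁻¹ • (F (2 * N) (dil (lam ^ N)⁻¹ p) - F (2 * N) (dil (lam ^ N)⁻¹ 0))
  have hG : ∀ p q : Hs, ∀ᶠ N in atTop,
      a * DD p q ^ ε ≤ ‖G N q - G N p‖ ∧ ‖G N q - G N p‖ ≤ b * DD p q ^ ε := by
    intro p q
    by_cases hpq : p = q
    · subst hpq
      have : DD p p = 0 := by simp [DD, om, mul_comm]
      simp [this, Real.zero_rpow hε0.ne']
    have hD := DD_pos hpq
    have ht := tendsto_pow_atTop_atTop_of_one_lt hl
    filter_upwards [ht.eventually_ge_atTop (DD p q), ht.eventually_ge_atTop (DD p q)⁻¹]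
      with N h1 h2
    have hN : 0 < lam ^ N := by positivity
    have hsN : 0 < s ^ N := by positivity
    have h3 := hF (2 * N) (dil (lam ^ N)⁻¹ p) (dil (lam ^ N)⁻¹ q)
      (by rw [DD_dil (by positivity), inv_mul_le_iff₀ hN, mul_one]; exact h1)
      (by
        rw [DD_dil (by positivity), two_mul, pow_add, mul_assoc, mul_inv_cancel_left₀ hN.ne']
        rw [inv_le_iff_one_le_mul₀ hD] at h2
        exact h2)
    rw [DD_dil (by positivity), ← hscale N _ (by positivity), mul_inv_cancel_left₀ hN.ne'] at h3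
    have e : ‖G N q - G N p‖ =
        (s ^ N)⁻¹ * ‖F (2 * N) (dil (lam ^ N)⁻¹ q) - F (2 * N) (dil (lam ^ N)⁻¹ p)‖ := by
      simp only [G]
      rw [← smul_sub, sub_sub_sub_cancel_right, norm_smul, Real.norm_eq_abs,
        abs_of_pos (inv_pos.2 hsN)]
    rw [e, le_inv_mul_iff₀ hsN, inv_mul_le_iff₀ hsN]
    constructor
    · linarith [h3.1]
    · linarith [h3.2]
  let U : Ultrafilter ℕ := Filter.hyperfilter ℕ
  have hU : (U : Filter ℕ) ≤ atTop := Nat.hyperfilter_le_atTop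
  have hlim : ∀ p : Hs, ∃ x : Tg, Tendsto (fun N => G N p) U (𝓝 x) := by
    intro p
    have hmem : (U.map fun N => G N p : Filter Tg) ≤ 𝓟 (Metric.closedBall 0 (b * DD 0 p ^ ε)) := by
      rw [le_principal_iff]
      refine mem_map.2 (hU ?_)
      filter_upwards [hG 0 p] with N hN
      have : G N 0 = 0 := by simp [G]
      rw [this, sub_zero] at hN
      simpa using hN.2
    obtain ⟨x, -, hx⟩ := (isCompact_closedBall (0 : Tg) (b * DD 0 p ^ ε)).ultrafilter_le_nhds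
      (U.map fun N => G N p) hmem
    exact ⟨x, hx⟩
  choose f hf using hlim
  refine ⟨ε, a, b, f, hε0, hε1, ha, hb, fun p q => ?_⟩
  have ht : Tendsto (fun N => ‖G N q - G N p‖) U (𝓝 ‖f q - f p‖) := ((hf q).sub (hf p)).norm
  exact ⟨ge_of_tendsto ht ((hG p q).filter_mono hU |>.mono fun N h => h.1),
    le_of_tendsto ht ((hG p q).filter_mono hU |>.mono fun N h => h.2)⟩

/-- Identification of the target with Euclidean five-space. -/
noncomputable def toE5 (v : Tg) : EuclideanSpace ℝ (Fin 5) :=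
  WithLp.toLp 2 ![v.1.re, v.1.im, v.2.1.re, v.2.1.im, v.2.2]

lemma dist_toE5 (v w : Tg) : ‖w - v‖ ≤ dist (toE5 v) (toE5 w) ∧
    dist (toE5 v) (toE5 w) ≤ 2 * ‖w - v‖ := by
  have e : dist (toE5 v) (toE5 w) ^ 2 =
      ‖(w - v).1‖ ^ 2 + ‖(w - v).2.1‖ ^ 2 + ‖(w - v).2.2‖ ^ 2 := by
    rw [EuclideanSpace.dist_eq, Real.sq_sqrt (Finset.sum_nonneg fun i _ => sq_nonneg _),
      Fin.sum_univ_five, Complex.sq_norm, Complex.sq_norm, Complex.normSq_apply,
      Complex.normSq_apply, Real.norm_eq_abs, sq_abs]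
    simp [toE5, Real.dist_eq, sq_abs]
    ring
  generalize w - v = u at e ⊢
  have h1 := norm_fst_le u
  have h2 := (norm_fst_le u.2).trans (norm_snd_le u)
  have h3 := (norm_snd_le u.2).trans (norm_snd_le u)
  constructor
  · rw [Prod.norm_def, Prod.norm_def]
    refine max_le ?_ (max_le ?_ ?_) <;> apply le_of_sq_le_sq _ dist_nonneg <;> rw [e] <;>
      nlinarith [sq_nonneg ‖u.1‖, sq_nonneg ‖u.2.1‖, sq_nonneg ‖u.2.2‖]
  · apply le_of_sq_le_sq _ (by positivity)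
    rw [e]
    nlinarith [norm_nonneg u.1, norm_nonneg u.2.1, norm_nonneg u.2.2]

lemma DD_compare (p q : Hs) :
    DD p q ^ 4 ≤ ((q.1 - p.1) ^ 2 + (q.2.1 - p.2.1) ^ 2) ^ 2 + om p q ^ 2 ∧
    ((q.1 - p.1) ^ 2 + (q.2.1 - p.2.1) ^ 2) ^ 2 + om p q ^ 2 ≤ 5 * DD p q ^ 4 := by
  have h1 : |q.1 - p.1| ≤ DD p q := (le_max_left _ _).trans (le_max_left _ _)
  have h2 : |q.2.1 - p.2.1| ≤ DD p q := (le_max_right _ _).trans (le_max_left _ _)
  have h3 : √|om p q| ≤ DD p q := le_max_right _ _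
  have e3 : om p q ^ 2 = √|om p q| ^ 4 := by
    rw [show 4 = 2 * 2 by rfl, pow_mul, Real.sq_sqrt (abs_nonneg _), sq_abs]
  rw [← sq_abs (q.1 - p.1), ← sq_abs (q.2.1 - p.2.1), e3]
  have a0 := abs_nonneg (q.1 - p.1)
  have b0 := abs_nonneg (q.2.1 - p.2.1)
  have c0 := Real.sqrt_nonneg |om p q|
  constructor
  · rw [DD]
    generalize |q.1 - p.1| = a at *
    generalize |q.2.1 - p.2.1| = b at *
    generalize √|om p q| = c at *
    rcases max_choice (max a b) c with h | h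
    · rcases max_choice a b with h' | h' <;> rw [h, h'] <;>
        nlinarith [sq_nonneg (a * b), sq_nonneg (a ^ 2), sq_nonneg (b ^ 2), sq_nonneg (c ^ 2)]
    · rw [h]; nlinarith [sq_nonneg (a ^ 2 + b ^ 2)]
  · have t1 := pow_le_pow_left₀ a0 h1 2
    have t2 := pow_le_pow_left₀ b0 h2 2
    have t3 := pow_le_pow_left₀ c0 h3 4
    have t4 := pow_le_pow_left₀ (by positivity) (add_le_add t1 t2) 2
    nlinarith

theorem heisenberg_embedding :
    ∃ ε : ℝ, 0 < ε ∧ ε < 1 ∧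
      ∃ f : ℝ × ℝ × ℝ → EuclideanSpace ℝ (Fin 5), ∃ C : ℝ, 0 < C ∧
        ∀ p q : ℝ × ℝ × ℝ,
          C⁻¹ * (((q.1 - p.1) ^ 2 + (q.2.1 - p.2.1) ^ 2) ^ 2
                + (q.2.2 - p.2.2 - 2 * (p.1 * q.2.1 - p.2.1 * q.1)) ^ 2) ^ (ε / 4)
              ≤ dist (f p) (f q) ∧
          dist (f p) (f q) ≤
            C * (((q.1 - p.1) ^ 2 + (q.2.1 - p.2.1) ^ 2) ^ 2
                + (q.2.2 - p.2.2 - 2 * (p.1 * q.2.1 - p.2.1 * q.1)) ^ 2) ^ (ε / 4) := by
  obtain ⟨ε, a, b, f, hε0, hε1, ha, hb, hf⟩ := exists_global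
  refine ⟨ε, hε0, hε1, fun p => toE5 (f p), 5 / a + 2 * b, by positivity, fun p q => ?_⟩
  change _ * (_ + om p q ^ 2) ^ _ ≤ _ ∧ _ ≤ _ * (_ + om p q ^ 2) ^ _
  obtain ⟨c1, c2⟩ := DD_compare p q
  obtain ⟨d1, d2⟩ := dist_toE5 (f p) (f q)
  obtain ⟨f1, f2⟩ := hf p q
  have hD := DD_nonneg p q
  generalize ((q.1 - p.1) ^ 2 + (q.2.1 - p.2.1) ^ 2) ^ 2 + om p q ^ 2 = ρ at c1 c2 ⊢
  have hρ : 0 ≤ ρ := le_trans (by positivity) c1
  have e : (DD p q ^ 4) ^ (ε / 4) = DD p q ^ ε := by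
    rw [← Real.rpow_natCast, ← Real.rpow_mul hD]
    congr 1
    push_cast
    ring
  have g1 : DD p q ^ ε ≤ ρ ^ (ε / 4) := by
    rw [← e]; exact Real.rpow_le_rpow (by positivity) c1 (by positivity)
  have g2 : ρ ^ (ε / 4) ≤ 5 * DD p q ^ ε := by
    refine (Real.rpow_le_rpow hρ c2 (by positivity)).trans ?_
    rw [Real.mul_rpow (by norm_num) (by positivity), e]
    apply mul_le_mul_of_nonneg_right _ (by positivity)
    exact Real.rpow_le_self_of_one_le (by norm_num) (by linarith)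
  have hρ' : 0 ≤ ρ ^ (ε / 4) := by positivity
  constructor
  · have h1 : (5 / a + 2 * b)⁻¹ ≤ (5 / a)⁻¹ :=
      inv_anti₀ (by positivity) (le_add_of_nonneg_right (by positivity))
    calc _ ≤ (5 / a)⁻¹ * (5 * DD p q ^ ε) := by gcongr
      _ = a * DD p q ^ ε := by field_simp
      _ ≤ _ := f1.trans d1
  · have h1 : 0 ≤ 5 / a * ρ ^ (ε / 4) := by positivity
    have h2 := mul_le_mul_of_nonneg_left g1 hb.le
    nlinarith

end Pool.Agent.Work.MP_689d9c_gt
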