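import Pool.Agent.Work.MP_689d9c_gt.Good

set_option autoImplicit false

namespace Pool.Agent.Work.MP_689d9c_gt

open Real Filter Topology MeasureTheory

/-- Real part of the velocity field. -/
noncomputable def Wf (a b θ θ' : ℝ) : ℝ :=
  (1 - 2 * (a * cos θ ^ 2)) * (1 - 2 * (b * cos (3 * θ') ^ 2)) -
    4 * ((a * cos θ) * (b * cos (3 * θ')))

/-- Imaginary part of the velocity field. -/
noncomputable def Zf (a b θ θ' : ℝ) : ℝ :=
  2 * ((a * cos θ) * (1 - 2 * (b * cos (3 * θ') ^ 2))) +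
    2 * ((b * cos (3 * θ')) * (1 - 2 * (a * cos θ ^ 2)))

lemma factor_lower {a c : ℝ} (ha : 0 ≤ a) (hc : c ^ 2 ≤ 1) :
    1 / 2 ≤ (1 - 2 * (a * c ^ 2)) ^ 2 + (2 * (a * c)) ^ 2 := by
  have h1 : a * c ^ 2 ≤ a := mul_le_of_le_one_right ha hc
  have h2 : 0 ≤ a * c ^ 2 := by positivity
  have h3 : (a * c ^ 2) ^ 2 ≤ (a * c) ^ 2 := by
    have := mul_le_mul_of_nonneg_right h1 h2
    nlinarith
  nlinarith [sq_nonneg (4 * (a * c ^ 2) - 1)]

lemma WZ_lower {a b : ℝ} (ha : 0 ≤ a) (hb : 0 ≤ b) (θ θ' : ℝ) :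
    1 / 4 ≤ Wf a b θ θ' ^ 2 + Zf a b θ θ' ^ 2 := by
  have h1 := factor_lower ha (cos_sq_le_one θ)
  have h2 := factor_lower hb (cos_sq_le_one (3 * θ'))
  have := mul_le_mul h1 h2 (by norm_num) (by positivity)
  refine le_trans (by norm_num) (this.trans (le_of_eq ?_))
  simp only [Wf, Zf]; ring

lemma cos_three_add_pi (θ : ℝ) : cos (3 * (θ + π)) = -cos (3 * θ) := by
  rw [show 3 * (θ + π) = 3 * θ + π + 2 * π by ring, cos_add_two_pi, cos_add_pi]

lemma Wf_add_pi (a b θ θ' : ℝ) : Wf a b (θ + π) (θ' + π) = Wf a b θ θ' := by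
  simp only [Wf, cos_add_pi, cos_three_add_pi]; ring

lemma Zf_add_pi (a b θ θ' : ℝ) : Zf a b (θ + π) (θ' + π) = -Zf a b θ θ' := by
  simp only [Zf, cos_add_pi, cos_three_add_pi]; ring

lemma integral_cos_nat (k : ℕ) (hk : k ≠ 0) (c : ℝ) :
    ∫ r in (0 : ℝ)..2 * π, cos (k * r + c) = 0 := by
  have hk' : (k : ℝ) ≠ 0 := by exact_mod_cast hk
  rw [intervalIntegral.integral_comp_mul_add cos hk' c, integral_cos,
    show (k : ℝ) * (2 * π) + c = c + k * (2 * π) by ring, sin_add_nat_mul_two_pi]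
  simp

lemma integral_Wf {a b : ℝ} (hab : a = 1 ∨ b = 1) (θ θ' : ℝ) :
    ∫ r in (0 : ℝ)..2 * π, Wf a b (θ + r) (θ' + r) = 0 := by
  have h0 : (1 - a) * (1 - b) = 0 := by rcases hab with h | h <;> simp [h]
  have e : ∀ r, Wf a b (θ + r) (θ' + r) =
      -((1 - a) * b) * cos ((6 : ℕ) * r + 6 * θ') - a * (1 - b) * cos ((2 : ℕ) * r + 2 * θ) +
      a * b / 2 * cos ((8 : ℕ) * r + (6 * θ' + 2 * θ)) +
      a * b / 2 * cos ((4 : ℕ) * r + (6 * θ' - 2 * θ)) -
      2 * a * b * cos ((4 : ℕ) * r + (3 * θ' + θ)) -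
      2 * a * b * cos ((2 : ℕ) * r + (3 * θ' - θ)) := by
    intro r
    have e1 : ((6 : ℕ) : ℝ) * r + 6 * θ' = 2 * (3 * (θ' + r)) := by push_cast; ring
    have e2 : ((2 : ℕ) : ℝ) * r + 2 * θ = 2 * (θ + r) := by push_cast; ring
    have e3 : ((8 : ℕ) : ℝ) * r + (6 * θ' + 2 * θ) = 2 * (3 * (θ' + r)) + 2 * (θ + r) := by
      push_cast; ring
    have e4 : ((4 : ℕ) : ℝ) * r + (6 * θ' - 2 * θ) = 2 * (3 * (θ' + r)) - 2 * (θ + r) := by
      push_cast; ring
    have e5 : ((4 : ℕ) : ℝ) * r + (3 * θ' + θ) = 3 * (θ' + r) + (θ + r) := by push_cast; ring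
    have e6 : ((2 : ℕ) : ℝ) * r + (3 * θ' - θ) = 3 * (θ' + r) - (θ + r) := by push_cast; ring
    rw [e1, e2, e3, e4, e5, e6, Wf]
    generalize θ + r = A
    generalize 3 * (θ' + r) = B
    rw [cos_add, cos_sub, cos_add, cos_sub, cos_two_mul, cos_two_mul]
    linear_combination h0
  simp only [e]
  have hi : ∀ (k : ℕ) (c d : ℝ), IntervalIntegrable (fun r => d * cos (k * r + c)) volume 0
      (2 * π) := fun k c d => Continuous.intervalIntegrable (by fun_prop) _ _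
  rw [intervalIntegral.integral_sub, intervalIntegral.integral_sub, intervalIntegral.integral_add,
    intervalIntegral.integral_add, intervalIntegral.integral_sub]
  · simp only [intervalIntegral.integral_const_mul]
    rw [integral_cos_nat _ (by norm_num), integral_cos_nat _ (by norm_num),
      integral_cos_nat _ (by norm_num), integral_cos_nat _ (by norm_num),
      integral_cos_nat _ (by norm_num), integral_cos_nat _ (by norm_num)]
    simp
  all_goals exact Continuous.intervalIntegrable (by fun_prop) _ _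

lemma Wf_ae_ne_zero {a b : ℝ} (ha : 0 ≤ a) (hb : 0 ≤ b) (θ θ' : ℝ) :
    ∀ᵐ r : ℝ, Wf a b (θ + r) (θ' + r) ≠ 0 := by
  have han : AnalyticOnNhd ℝ (fun r => Wf a b (θ + r) (θ' + r)) Set.univ := by
    intro r _
    simp only [Wf]
    fun_prop
  rcases han.eqOn_zero_or_eventually_ne_zero_of_preconnected isPreconnected_univ with h | h
  · exfalso
    have hc : Continuous fun r => Zf a b (θ + r) (θ' + r) := by simp only [Zf]; fun_prop
    have hπ : Zf a b (θ + π) (θ' + π) = -Zf a b (θ + 0) (θ' + 0) := by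
      rw [Zf_add_pi, add_zero, add_zero]
    obtain ⟨r, hr⟩ : ∃ r, Zf a b (θ + r) (θ' + r) = 0 := by
      rcases le_total (Zf a b (θ + 0) (θ' + 0)) 0 with h1 | h1
      · exact intermediate_value_univ 0 π hc ⟨h1, by simp only [hπ]; linarith⟩
      · exact intermediate_value_univ π 0 hc ⟨by simp only [hπ]; linarith, h1⟩
    have h1 := WZ_lower ha hb (θ + r) (θ' + r)
    have h2 : Wf a b (θ + r) (θ' + r) = 0 := h (Set.mem_univ r)
    rw [hr, h2] at h1
    norm_num at h1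
  · have := ae_restrict_le_codiscreteWithin (μ := (volume : Measure ℝ)) MeasurableSet.univ h
    rwa [Measure.restrict_univ] at this

lemma exists_M {η : ℝ} (hη : 0 < η) : ∃ M : ℝ, 1 ≤ M ∧ ∀ a b θ θ' : ℝ, 0 ≤ a → a ≤ 1 → 0 ≤ b →
    b ≤ 1 → ∫ r in (0 : ℝ)..2 * π, (1 + (M * Wf a b (θ + r) (θ' + r)) ^ 2)⁻¹ ≤ η := by
  have hπ : 0 < 2 * π := by positivity
  let I : ℕ → ℝ × ℝ × ℝ × ℝ → ℝ := fun n x =>
    ∫ r in (0 : ℝ)..2 * π, (1 + (((n : ℝ) + 1) * Wf x.1 x.2.1 (x.2.2.1 + r) (x.2.2.2 + r)) ^ 2)⁻¹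
  have hcont : ∀ n : ℕ, Continuous (Function.uncurry fun (x : ℝ × ℝ × ℝ × ℝ) (r : ℝ) =>
      (1 + (((n : ℝ) + 1) * Wf x.1 x.2.1 (x.2.2.1 + r) (x.2.2.2 + r)) ^ 2)⁻¹) := by
    intro n
    apply Continuous.inv₀
    · simp only [Wf]; fun_prop
    · intro x; positivity
  have hcr : ∀ (n : ℕ) (x : ℝ × ℝ × ℝ × ℝ), Continuous fun r : ℝ =>
      (1 + (((n : ℝ) + 1) * Wf x.1 x.2.1 (x.2.2.1 + r) (x.2.2.2 + r)) ^ 2)⁻¹ :=
    fun n x => Continuous.inv₀ (by simp only [Wf]; fun_prop) (fun r => by positivity)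
  have hIc : ∀ n, Continuous (I n) := fun n =>
    intervalIntegral.continuous_parametric_intervalIntegral_of_continuous' (hcont n) _ _
  have hanti : ∀ x, Antitone fun n => I n x := by
    intro x m n hmn
    apply intervalIntegral.integral_mono_on hπ.le ((hcr n x).intervalIntegrable _ _)
      ((hcr m x).intervalIntegrable _ _)
    intro r _
    apply inv_anti₀ (by positivity)
    have : (m : ℝ) ≤ n := by exact_mod_cast hmn
    rw [mul_pow, mul_pow]
    gcongr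
  let S : Set (ℝ × ℝ × ℝ × ℝ) :=
    Set.Icc 0 1 ×ˢ Set.Icc 0 1 ×ˢ Set.Icc 0 (2 * π) ×ˢ Set.Icc 0 (2 * π)
  have hS : IsCompact S := isCompact_Icc.prod (isCompact_Icc.prod (isCompact_Icc.prod isCompact_Icc))
  obtain ⟨n, hn⟩ := hS.elim_directed_cover (fun n => {x | I n x < η})
    (fun n => isOpen_lt (hIc n) continuous_const) (by
      intro x hx
      have hlim : Tendsto (fun n => I n x) atTop (𝓝 (∫ r in (0 : ℝ)..2 * π, (0 : ℝ))) := by
        apply intervalIntegral.tendsto_integral_filter_of_dominated_convergence (fun _ => 1)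
        · exact Eventually.of_forall fun n => (hcr n x).aestronglyMeasurable
        · refine Eventually.of_forall fun n => Eventually.of_forall fun r _ => ?_
          rw [Real.norm_eq_abs, abs_of_pos (by positivity)]
          apply inv_le_one_of_one_le₀
          nlinarith [sq_nonneg (((n : ℝ) + 1) * Wf x.1 x.2.1 (x.2.2.1 + r) (x.2.2.2 + r))]
        · simp
        · filter_upwards [Wf_ae_ne_zero hx.1.1 hx.2.1.1 x.2.2.1 x.2.2.2] with r hr _
          apply Tendsto.inv_tendsto_atTop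
          apply tendsto_atTop_add_const_left
          simp only [mul_pow]
          apply Tendsto.atTop_mul_const (by positivity)
          apply (tendsto_pow_atTop (by norm_num)).comp
          exact tendsto_atTop_add_const_right _ _ tendsto_natCast_atTop_atTop
      rw [intervalIntegral.integral_zero] at hlim
      obtain ⟨n, hn⟩ := (hlim.eventually (gt_mem_nhds hη)).exists
      exact Set.mem_iUnion.2 ⟨n, hn⟩)
    (directed_of_isDirected_le fun m n hmn x hx => lt_of_le_of_lt (hanti x hmn) hx)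
  refine ⟨n + 1, by linarith [(Nat.cast_nonneg n : (0 : ℝ) ≤ n)], fun a b θ θ' ha ha' hb hb' => ?_⟩
  have h1 := toIcoMod_mem_Ico hπ 0 θ
  have h2 := toIcoMod_mem_Ico hπ 0 θ'
  rw [zero_add] at h1 h2
  have hx : (a, b, toIcoMod hπ 0 θ, toIcoMod hπ 0 θ') ∈ S :=
    ⟨⟨ha, ha'⟩, ⟨hb, hb'⟩, Set.Ico_subset_Icc_self h1, Set.Ico_subset_Icc_self h2⟩
  refine le_of_eq_of_le ?_ (le_of_lt (hn hx))
  simp only [I]
  congr 1
  funext r
  have e1 : cos (toIcoMod hπ 0 θ + r) = cos (θ + r) := by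
    rw [← self_sub_toIcoDiv_zsmul, zsmul_eq_mul,
      show θ - toIcoDiv hπ 0 θ * (2 * π) + r = θ + r - toIcoDiv hπ 0 θ * (2 * π) by ring,
      cos_sub_int_mul_two_pi]
  have e2 : cos (3 * (toIcoMod hπ 0 θ' + r)) = cos (3 * (θ' + r)) := by
    rw [← self_sub_toIcoDiv_zsmul, zsmul_eq_mul,
      show 3 * (θ' - toIcoDiv hπ 0 θ' * (2 * π) + r) =
        3 * (θ' + r) - ((3 * toIcoDiv hπ 0 θ' : ℤ) : ℝ) * (2 * π) by push_cast; ring,
      cos_sub_int_mul_two_pi]
  simp only [Wf, e1, e2]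

/-- The real part of the velocity field on the group. -/
noncomputable def WW (p : Hs) : ℝ := Wf (ch 0 p) (ch 1 p) (th 0 p) (th 1 p)

/-- The imaginary part of the velocity field on the group. -/
noncomputable def ZZ (p : Hs) : ℝ := Zf (ch 0 p) (ch 1 p) (th 0 p) (th 1 p)

lemma good_WZ : Good WW ∧ Good ZZ := by
  have hsq : ∀ u v : ℝ, |cos u ^ 2 - cos v ^ 2| ≤ 2 * |u - v| := by
    intro u v
    rw [sq_sub_sq, abs_mul]
    apply mul_le_mul _ (abs_cos_sub_cos_le _ _) (abs_nonneg _) (by norm_num)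
    have := abs_add_le (cos u) (cos v)
    linarith [abs_cos_le_one u, abs_cos_le_one v]
  have hsq1 : ∀ u : ℝ, |cos u ^ 2| ≤ 1 := fun u => by
    rw [abs_of_nonneg (sq_nonneg _)]; exact cos_sq_le_one u
  have h3 : ∀ u v : ℝ, |3 * u - 3 * v| = 3 * |u - v| := fun u v => by
    rw [← mul_sub, abs_mul]; norm_num
  have A0 := good_strip 0 (φ := cos) (l := 1) zero_le_one abs_cos_le_one
    (fun x x' => by simpa using abs_cos_sub_cos_le x' x)
  have B0 := good_strip 0 (φ := fun x => cos x ^ 2) (l := 2) (by norm_num) hsq1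
    (fun x x' => hsq x' x)
  have A1 := good_strip 1 (φ := fun x => cos (3 * x)) (l := 3) (by norm_num)
    (fun x => abs_cos_le_one _) (fun x x' => (abs_cos_sub_cos_le _ _).trans (h3 _ _).le)
  have B1 := good_strip 1 (φ := fun x => cos (3 * x) ^ 2) (l := 6) (by norm_num)
    (fun x => hsq1 _) (fun x x' => (hsq _ _).trans (by rw [h3]; linarith))
  have C0 := (Good.const 1).sub ((Good.const 2).mul B0)
  have C1 := (Good.const 1).sub ((Good.const 2).mul B1)
  exact ⟨(C0.mul C1).sub ((Good.const 4).mul (A0.mul A1)),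
    ((Good.const 2).mul (A0.mul C1)).add ((Good.const 2).mul (A1.mul C0))⟩

lemma WW_vt (p : Hs) (r : ℝ) : WW (vt p r) = Wf (ch 0 p) (ch 1 p) (th 0 p + r) (th 1 p + r) := by
  simp only [WW, ch_vt, th_vt]

lemma ZZ_vt (p : Hs) (r : ℝ) : ZZ (vt p r) = Zf (ch 0 p) (ch 1 p) (th 0 p + r) (th 1 p + r) := by
  simp only [ZZ, ch_vt, th_vt]

lemma WW_pi (p : Hs) (r : ℝ) : WW (vt p (r + π)) = WW (vt p r) := by
  rw [WW_vt, WW_vt, ← add_assoc, ← add_assoc, Wf_add_pi]

lemma ZZ_pi (p : Hs) (r : ℝ) : ZZ (vt p (r + π)) = -ZZ (vt p r) := by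
  rw [ZZ_vt, ZZ_vt, ← add_assoc, ← add_assoc, Zf_add_pi]

lemma WWZZ_lower (p : Hs) : 1 / 4 ≤ WW p ^ 2 + ZZ p ^ 2 :=
  WZ_lower (chi_nonneg _) (chi_nonneg _) _ _

lemma integral_WW (p : Hs) : ∫ r in (0 : ℝ)..2 * π, WW (vt p r) = 0 := by
  simp only [WW_vt]
  apply integral_Wf
  rcases ctr_cover p.2.1 with h | h
  · exact Or.inl (chi_eq_one h)
  · exact Or.inr (chi_eq_one h)

lemma anti_vt_sub {f : Hs → ℝ} (hf : Good f) (hp : ∀ p r, f (vt p (r + 2 * π)) = f (vt p r))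
    (h0 : ∀ p, ∫ r in (0 : ℝ)..2 * π, f (vt p r) = 0) (p : Hs) (τ : ℝ) :
    (anti fun r => f (vt (vt p τ) r)) - (anti fun r => f (vt p r)) =
      ∫ r in (0 : ℝ)..τ, f (vt p r) := by
  simp only [vt_vt]
  exact anti_shift (φ := fun r => f (vt p r)) (hf.continuous_vt p) (hp p) (h0 p) τ

lemma le_abs_integral {f : ℝ → ℝ} (hf : Continuous f) {c τ : ℝ} (hτ : 0 ≤ τ)
    (h : (∀ r ∈ Set.Icc 0 τ, c ≤ f r) ∨ (∀ r ∈ Set.Icc 0 τ, c ≤ -f r)) :
    c * τ ≤ |∫ r in (0 : ℝ)..τ, f r| := by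
  rcases h with h | h
  · have := intervalIntegral.integral_mono_on hτ (continuous_const.intervalIntegrable _ _)
      (hf.intervalIntegrable (μ := volume) _ _) h
    rw [intervalIntegral.integral_const, sub_zero, smul_eq_mul, mul_comm] at this
    exact this.trans (le_abs_self _)
  · have hf' : Continuous fun r => -f r := hf.neg
    have := intervalIntegral.integral_mono_on hτ (continuous_const.intervalIntegrable _ _)
      (hf'.intervalIntegrable (μ := volume) _ _) h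
    rw [intervalIntegral.integral_const, sub_zero, smul_eq_mul, mul_comm,
      intervalIntegral.integral_neg] at this
    exact this.trans (neg_le_abs _)

/-- The planar pattern along the vertical fibres. -/
structure PatP (Ψ1 Ψ2 E1 E2 : Hs → ℝ) (C c : ℝ) : Prop where
  hC : 1 ≤ C
  hc : 0 < c
  b1 : ∀ p, |Ψ1 p| ≤ 1 / 100
  b2 : ∀ p, |Ψ2 p| ≤ C
  unit : ∀ p, E1 p ^ 2 + E2 p ^ 2 = 1
  l1 : ∀ p q, |Ψ1 q - Ψ1 p| ≤ C * gN p q
  l2 : ∀ p q, |Ψ2 q - Ψ2 p| ≤ C * gN p q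
  e1 : ∀ p q, |E1 q - E1 p| ≤ C * gN p q
  e2 : ∀ p q, |E2 q - E2 p| ≤ C * gN p q
  taylor : ∀ p τ, 0 ≤ τ →
    τ / 4 - C * τ ^ 2 ≤ E1 p * (Ψ1 (vt p τ) - Ψ1 p) + E2 p * (Ψ2 (vt p τ) - Ψ2 p)
  window : ∀ p τ, 0 ≤ τ → τ ≤ 1 →
    c * τ ≤ |Ψ1 (vt p τ) - Ψ1 p| ∨ c * τ ≤ |Ψ2 (vt p τ) - Ψ2 p|

theorem exists_pattern : ∃ (Ψ1 Ψ2 E1 E2 : Hs → ℝ) (C c : ℝ), PatP Ψ1 Ψ2 E1 E2 C c := by
  obtain ⟨hW, hZ⟩ := good_WZ
  obtain ⟨A, hA0, hA1, hA2⟩ := id hW
  obtain ⟨B, hB0, hB1, hB2⟩ := id hZ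
  set ρ : ℝ := 1 / (8 * (A + B + 1)) with hρ
  have hρ0 : 0 < ρ := by positivity
  have hρ1 : ρ * (A + B + 1) = 1 / 8 := by rw [hρ]; field_simp
  have hρ2 : ρ ≤ 1 / 8 := by nlinarith
  set κ := ρ ^ 2 with hκ
  have hκ0 : 0 < κ := by positivity
  have hκρ : κ ≤ ρ := by nlinarith
  have hκA : A * κ ≤ 1 / 8 := by nlinarith
  have hκB : B * κ ≤ 1 / 8 := by nlinarith
  obtain ⟨M, hM1, hM⟩ := exists_M (η := κ / (100 * (B + 1))) (by positivity)
  set V1 : Hs → ℝ := fun p => ZZ p * (1 + (M * WW p) * (M * WW p))⁻¹ with hV1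
  set V2 : Hs → ℝ := fun p => M * WW p with hV2
  have gV2 : Good V2 := (Good.const M).mul hW
  have gV1 : Good V1 := hZ.mul (((Good.const 1).add (gV2.mul gV2)).inv one_pos
    fun p => le_add_of_nonneg_right (mul_self_nonneg _))
  have hlow : ∀ p, (1 / 4) ^ 2 ≤ V1 p * V1 p + V2 p * V2 p := by
    intro p
    by_cases h : (1 / 4) ^ 2 ≤ V2 p * V2 p
    · nlinarith [mul_self_nonneg (V1 p)]
    · push Not at h
      have h1 := WWZZ_lower p
      have h2 : WW p ^ 2 ≤ V2 p * V2 p := by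
        simp only [hV2]
        nlinarith [sq_nonneg (WW p), mul_le_mul hM1 hM1 zero_le_one (by linarith)]
      have h3 : 16 / 17 ≤ (1 + (M * WW p) * (M * WW p))⁻¹ := by
        rw [le_inv_comm₀ (by norm_num) (by nlinarith [mul_self_nonneg (M * WW p)])]
        simp only [hV2] at h
        linarith
      have h4 : V1 p * V1 p = ZZ p ^ 2 * ((1 + (M * WW p) * (M * WW p))⁻¹) ^ 2 := by
        simp only [hV1]; ring
      have h5 : (16 / 17 : ℝ) ^ 2 ≤ ((1 + (M * WW p) * (M * WW p))⁻¹) ^ 2 := by gcongr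
      have h6 : 3 / 16 ≤ ZZ p ^ 2 := by linarith
      have h7 := mul_le_mul h6 h5 (by norm_num) (sq_nonneg _)
      nlinarith [mul_self_nonneg (V2 p)]
  set Nn : Hs → ℝ := fun p => √(V1 p * V1 p + V2 p * V2 p) with hNn
  have gN' : Good Nn := ((gV1.mul gV1).add (gV2.mul gV2)).sqrt (by norm_num) hlow
  have hNn4 : ∀ p, 1 / 4 ≤ Nn p := fun p => Real.le_sqrt_of_sq_le (hlow p)
  have hNn2 : ∀ p, Nn p * Nn p = V1 p * V1 p + V2 p * V2 p := fun p =>
    Real.mul_self_sqrt (le_trans (by norm_num) (hlow p))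
  have gE1 : Good fun p => V1 p * (Nn p)⁻¹ := gV1.mul (gN'.inv (by norm_num) hNn4)
  have gE2 : Good fun p => V2 p * (Nn p)⁻¹ := gV2.mul (gN'.inv (by norm_num) hNn4)
  have pV1 : ∀ p r, V1 (vt p (r + π)) = -V1 (vt p r) := by
    intro p r; simp only [hV1, WW_pi, ZZ_pi]; ring
  have pV2 : ∀ p r, V2 (vt p (r + π)) = V2 (vt p r) := by
    intro p r; simp only [hV2, WW_pi]
  have d1 := anti_vt_sub gV1 (fun p r => by rw [two_mul, ← add_assoc, pV1, pV1, neg_neg])
    (fun p => integral_zero_of_antiperiodic (gV1.continuous_vt p) (pV1 p))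
  have d2 := anti_vt_sub gV2 (fun p r => by rw [two_mul, ← add_assoc, pV2, pV2])
    (fun p => by simp only [hV2]; rw [intervalIntegral.integral_const_mul, integral_WW, mul_zero])
  set P1 : Hs → ℝ := fun p => anti fun r => V1 (vt p r) with hP1
  set P2 : Hs → ℝ := fun p => anti fun r => V2 (vt p r) with hP2
  have gP1 : Good P1 := gV1.anti
  have gP2 : Good P2 := gV2.anti
  have hρ1' : ρ ≤ 1 := by linarith
  obtain ⟨C1, h10, -, h12⟩ := (Good.const κ⁻¹).mul (gP1.dil hρ0.le hρ1')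
  obtain ⟨C2, h20, h21, h22⟩ := (Good.const κ⁻¹).mul (gP2.dil hρ0.le hρ1')
  obtain ⟨C3, h30, -, h32⟩ := gE1.dil hρ0.le hρ1'
  obtain ⟨C4, h40, -, h42⟩ := gE2.dil hρ0.le hρ1'
  obtain ⟨C5, h50, -, h52⟩ := id gV1
  obtain ⟨C6, h60, -, h62⟩ := id gV2
  have hsmall : ∀ p, |P1 p| ≤ κ / 100 := by
    intro p
    refine (norm_anti_le (gV1.continuous_vt p)).trans ?_
    have h1 := hM (ch 0 p) (ch 1 p) (th 0 p) (th 1 p) (chi_nonneg _) (chi_le_one _) (chi_nonneg _)
      (chi_le_one _)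
    have hc : Continuous fun r => (1 + (M * WW (vt p r)) ^ 2)⁻¹ :=
      Continuous.inv₀ (by have := hW.continuous_vt p; fun_prop) (fun r => by positivity)
    have h2 : ∫ r in (0 : ℝ)..2 * π, ‖V1 (vt p r)‖ ≤
        ∫ r in (0 : ℝ)..2 * π, (B + 1) * (1 + (M * WW (vt p r)) ^ 2)⁻¹ := by
      apply intervalIntegral.integral_mono_on (by positivity)
        ((gV1.continuous_vt p).norm.intervalIntegrable _ _)
        ((continuous_const.mul hc).intervalIntegrable _ _)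
      intro r _
      simp only [hV1]
      rw [Real.norm_eq_abs, abs_mul, ← pow_two,
        abs_of_pos (a := (1 + (M * WW (vt p r)) ^ 2)⁻¹) (by positivity)]
      apply mul_le_mul_of_nonneg_right _ (by positivity)
      linarith [hB1 (vt p r)]
    rw [intervalIntegral.integral_const_mul] at h2
    simp only [WW_vt] at h2
    refine h2.trans ((mul_le_mul_of_nonneg_left h1 (by positivity)).trans (le_of_eq ?_))
    field_simp
  have htay : ∀ p σ, σ * Nn p - (C5 + C6) * σ ^ 2 ≤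
      V1 p * (Nn p)⁻¹ * (P1 (vt p σ) - P1 p) + V2 p * (Nn p)⁻¹ * (P2 (vt p σ) - P2 p) := by
    intro p σ
    have hN : 0 < Nn p := lt_of_lt_of_le (by norm_num) (hNn4 p)
    have t1 := integral_taylor (gV1.continuous_vt p) h50 (fun r => by
      have := h52 p (vt p r)
      rwa [gN_vt, ← vt_zero p, vt_vt, zero_add] at this) σ
    have t2 := integral_taylor (gV2.continuous_vt p) h60 (fun r => by
      have := h62 p (vt p r)
      rwa [gN_vt, ← vt_zero p, vt_vt, zero_add] at this) σ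
    rw [← d1, vt_zero, Real.norm_eq_abs, smul_eq_mul] at t1
    rw [← d2, vt_zero, Real.norm_eq_abs, smul_eq_mul] at t2
    have u1 : |V1 p * (Nn p)⁻¹| ≤ 1 := by
      rw [← div_eq_mul_inv, abs_div, abs_of_pos hN, div_le_one hN]
      apply abs_le_of_sq_le_sq' _ hN.le |> fun h => abs_le.2 h
      nlinarith [hNn2 p, mul_self_nonneg (V2 p)]
    have u2 : |V2 p * (Nn p)⁻¹| ≤ 1 := by
      rw [← div_eq_mul_inv, abs_div, abs_of_pos hN, div_le_one hN]
      apply abs_le_of_sq_le_sq' _ hN.le |> fun h => abs_le.2 h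
      nlinarith [hNn2 p, mul_self_nonneg (V1 p)]
    have w1 := mul_le_mul u1 t1 (abs_nonneg _) zero_le_one
    have w2 := mul_le_mul u2 t2 (abs_nonneg _) zero_le_one
    rw [← abs_mul] at w1 w2
    have e : σ * Nn p = V1 p * (Nn p)⁻¹ * (σ * V1 p) + V2 p * (Nn p)⁻¹ * (σ * V2 p) := by
      field_simp
      linear_combination σ * hNn2 p
    have w1' := (abs_le.1 w1).1
    have w2' := (abs_le.1 w2).1
    rw [e]
    simp only [hP1, hP2]
    nlinarith
  set c : ℝ := 1 / 5 * (1 + (M * A) ^ 2)⁻¹ with hc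
  have hc0 : 0 < c := by positivity
  have hwin : ∀ p σ, 0 ≤ σ → σ ≤ κ →
      c * σ ≤ |P1 (vt p σ) - P1 p| ∨ c * σ ≤ |P2 (vt p σ) - P2 p| := by
    intro p σ h0 hσ
    have hc5 : c ≤ 1 / 5 := by
      rw [hc]
      apply mul_le_of_le_one_right (by norm_num)
      exact inv_le_one_of_one_le₀ (le_add_of_nonneg_right (sq_nonneg _))
    have vW : ∀ r ∈ Set.Icc 0 σ, |WW (vt p r) - WW p| ≤ 1 / 8 := by
      intro r hr
      have := hA2 p (vt p r)
      rw [gN_vt, abs_of_nonneg hr.1] at this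
      nlinarith [hr.2]
    have vZ : ∀ r ∈ Set.Icc 0 σ, |ZZ (vt p r) - ZZ p| ≤ 1 / 8 := by
      intro r hr
      have := hB2 p (vt p r)
      rw [gN_vt, abs_of_nonneg hr.1] at this
      nlinarith [hr.2]
    have hw : ∀ r, (1 + (M * A) ^ 2)⁻¹ ≤ (1 + (M * WW (vt p r)) * (M * WW (vt p r)))⁻¹ := by
      intro r
      apply inv_anti₀ (by nlinarith [mul_self_nonneg (M * WW (vt p r))])
      have h1 : WW (vt p r) ^ 2 ≤ A ^ 2 := by
        rw [← sq_abs]; gcongr; exact hA1 _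
      nlinarith [sq_nonneg M]
    by_cases h : 1 / 3 ≤ |WW p|
    · right
      simp only [hP2]
      rw [d2]
      apply le_abs_integral (gV2.continuous_vt p) h0
      rcases le_abs.1 h with h | h
      · refine Or.inl fun r hr => ?_
        have := (abs_le.1 (vW r hr)).1
        simp only [hV2]
        nlinarith
      · refine Or.inr fun r hr => ?_
        have := (abs_le.1 (vW r hr)).2
        simp only [hV2]
        nlinarith
    · left
      have h' : 1 / 3 ≤ |ZZ p| := by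
        by_contra h'
        push Not at h h'
        have h1 := WWZZ_lower p
        rw [← sq_abs (WW p), ← sq_abs (ZZ p)] at h1
        nlinarith [abs_nonneg (WW p), abs_nonneg (ZZ p)]
      simp only [hP1]
      rw [d1]
      apply le_abs_integral (gV1.continuous_vt p) h0
      rcases le_abs.1 h' with h' | h'
      · refine Or.inl fun r hr => ?_
        have := (abs_le.1 (vZ r hr)).1
        simp only [hV1, hc]
        exact mul_le_mul (by linarith) (hw r) (by positivity) (by linarith)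
      · refine Or.inr fun r hr => ?_
        have := (abs_le.1 (vZ r hr)).2
        simp only [hV1, hc]
        rw [← neg_mul]
        exact mul_le_mul (by linarith) (hw r) (by positivity) (by linarith)
  obtain ⟨C, hC⟩ : ∃ C, C = 1 + C1 + C2 + C3 + C4 + C5 + C6 := ⟨_, rfl⟩
  have hκ1 : κ ≤ 1 := by linarith
  clear_value P1 P2 Nn V1 V2 c
  have hle : ∀ {a b : ℝ} (p q : Hs), a ≤ b * gN p q → b ≤ C → a ≤ C * gN p q :=
    fun p q h1 h2 => h1.trans (mul_le_mul_of_nonneg_right h2 (gN_nonneg p q))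
  refine ⟨fun p => κ⁻¹ * P1 (dil ρ p), fun p => κ⁻¹ * P2 (dil ρ p),
    fun p => V1 (dil ρ p) * (Nn (dil ρ p))⁻¹, fun p => V2 (dil ρ p) * (Nn (dil ρ p))⁻¹, C, c,
    by linarith, hc0, fun p => ?_, fun p => (h21 p).trans (by linarith), fun p => ?_,
    fun p q => hle p q (h12 p q) (by linarith), fun p q => hle p q (h22 p q) (by linarith),
    fun p q => hle p q (h32 p q) (by linarith), fun p q => hle p q (h42 p q) (by linarith),
    fun p τ hτ => ?_, fun p τ hτ hτ1 => ?_⟩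
  · rw [abs_mul, abs_of_pos (inv_pos.2 hκ0)]
    refine (mul_le_mul_of_nonneg_left (hsmall _) (inv_pos.2 hκ0).le).trans (le_of_eq ?_)
    field_simp
  · have hN : 0 < Nn (dil ρ p) := lt_of_lt_of_le (by norm_num) (hNn4 _)
    field_simp
    linear_combination -hNn2 (dil ρ p)
  · have h1 := htay (dil ρ p) (κ * τ)
    rw [dil_vt, ← hκ]
    have h2 := mul_le_mul_of_nonneg_left h1 (inv_pos.2 hκ0).le
    have h3 : κ⁻¹ * (κ * τ * Nn (dil ρ p) - (C5 + C6) * (κ * τ) ^ 2) =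
        τ * Nn (dil ρ p) - (C5 + C6) * κ * τ ^ 2 := by field_simp
    rw [h3] at h2
    have h4 := mul_le_mul_of_nonneg_left (hNn4 (dil ρ p)) hτ
    have h5 : (C5 + C6) * κ ≤ C :=
      (mul_le_of_le_one_right (by positivity) hκ1).trans (by linarith)
    have h6 := mul_le_mul_of_nonneg_right h5 (sq_nonneg τ)
    linarith
  · have h1 := hwin (dil ρ p) (κ * τ) (by positivity) (mul_le_of_le_one_right hκ0.le hτ1)
    rw [dil_vt, ← hκ, ← mul_sub, ← mul_sub, abs_mul, abs_mul, abs_of_pos (inv_pos.2 hκ0)]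
    have e : c * τ = κ⁻¹ * (c * (κ * τ)) := by field_simp
    rw [e]
    exact h1.imp (fun h => mul_le_mul_of_nonneg_left h (inv_pos.2 hκ0).le)
      (fun h => mul_le_mul_of_nonneg_left h (inv_pos.2 hκ0).le)

end Pool.Agent.Work.MP_689d9c_gt
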